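import Pool.Agent.TH145.GE.CurveMain

/-!
Curves in complete intersections of generic members of linear systems.
-/

set_option autoImplicit false

open MvPolynomial FF Pool.Agent.W603.LV Pool.Agent.W603.PV Pool.Agent.TH145.GH
open Pool.Agent.TH145.GC (Ev dF_sub dF_self ord_prod exists_minor Rt Cf finite_cf Tan
  der_zero_of_alg)
open Pool.Agent.TH145.GD (Ti tv St sM sM_mem mon_step sM_zero sM_top single_mem deg_St finite_St)
open Pool.Agent.W602.GT Pool.Agent.TH145.MG

namespace Pool.Agent.TH145.GE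

/-- The derivation applied to the coefficients of a combination of forms with constant
coefficients. -/
theorem der_coeff {k0 k L : Type} [Field k0] [Field k] [Field L] [Algebra k0 k] [Algebra k L]
    [Algebra k0 L] [IsScalarTower k0 k L] {n : ℕ} {J : Type} [Fintype J]
    (P : J → MvPolynomial (Fin (n + 1)) k0) (c : J → k) (D : Derivation ℤ L L)
    (hD : ∀ r : k0, D (algebraMap k0 L r) = 0) (x : Fin (n + 1) → L) :
    ∑ u ∈ (map (algebraMap k L) (∑ j, C (c j) * map (algebraMap k0 k) (P j))).support,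
      D ((map (algebraMap k L) (∑ j, C (c j) * map (algebraMap k0 k) (P j))).coeff u) * mon x u =
      ∑ j, D (algebraMap k L (c j)) * aeval x (P j) := by
  classical
  obtain ⟨G, hG⟩ : ∃ G, G = map (algebraMap k L) (∑ j, C (c j) * map (algebraMap k0 k) (P j)) :=
    ⟨_, rfl⟩
  rw [← hG]
  have h1 : ∀ u, G.coeff u = ∑ j, algebraMap k L (c j) * algebraMap k0 L ((P j).coeff u) := by
    intro u
    rw [hG, coeff_map, coeff_sum, map_sum]
    refine Finset.sum_congr rfl fun j _ => ?_
    rw [coeff_C_mul, coeff_map, map_mul, ← IsScalarTower.algebraMap_apply]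
  have h2 : ∀ u, D (G.coeff u) = ∑ j, D (algebraMap k L (c j)) * algebraMap k0 L ((P j).coeff u) := by
    intro u
    rw [h1, map_sum]
    refine Finset.sum_congr rfl fun j _ => ?_
    rw [D.leibniz, hD, smul_zero, zero_add, smul_eq_mul, mul_comm]
  obtain ⟨S, hS⟩ : ∃ S, S = G.support ∪ Finset.univ.biUnion fun j => (P j).support := ⟨_, rfl⟩
  have h3 : G.support ⊆ S := by rw [hS]; exact Finset.subset_union_left
  have h4 : ∀ j, (P j).support ⊆ S := fun j => by
    rw [hS]
    exact (Finset.subset_biUnion_of_mem (fun j => (P j).support) (Finset.mem_univ j)).trans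
      Finset.subset_union_right
  rw [Finset.sum_subset h3 fun u _ hu => by
    rw [notMem_support_iff.1 hu, map_zero, zero_mul]]
  have h5 : ∀ j, aeval x (P j) = ∑ u ∈ S, algebraMap k0 L ((P j).coeff u) * mon x u := by
    intro j
    rw [aeval_def, eval₂_eq', ← Finset.sum_subset (h4 j) fun u _ hu => by
      rw [notMem_support_iff.1 hu, map_zero, zero_mul]]
    rfl
  simp only [h2, h5, Finset.sum_mul, Finset.mul_sum]
  rw [Finset.sum_comm]
  refine Finset.sum_congr rfl fun j _ => Finset.sum_congr rfl fun u _ => ?_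
  ring

open scoped Classical in
/-- The derivations that are dual to the coefficients of the members of the linear systems. -/
theorem exists_dualS {k0 k L : Type} [Field k0] [Field k] [Field L] [Algebra k0 k] [Algebra k L]
    [Algebra k0 L] [IsScalarTower k0 k L] [IsAlgClosed k] [CharZero k] [IsFF k L] {n : ℕ} {A : Type}
    [Finite A] {dg : A → ℕ} {J : A → Type} [∀ a, Fintype (J a)]
    (P : ∀ a, J a → MvPolynomial (Fin (n + 1)) k0) (cf : ∀ a, J a → k) (j0 : ∀ a, J a)
    (h1 : ∀ a, cf a (j0 a) = 1)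
    (hind : AlgebraicIndependent k0 fun p : Σ a, {j : J a // j ≠ j0 a} => cf p.1 p.2.1)
    (c0 : Fin (n + 1)) (hSt : ∀ a, ∀ I ∈ St c0 (dg a), ∃ j, P a j = monomial I 1)
    {G : A → MvPolynomial (Fin (n + 1)) k}
    (hG : ∀ a, G a = ∑ j, C (cf a j) * map (algebraMap k0 k) (P a j)) :
    ∃ (D : A → (Fin (n + 1) →₀ ℕ) → Derivation ℤ L L) (ε : A → (Fin (n + 1) →₀ ℕ) → ℕ),
      DualE c0 (fun a => map (algebraMap k L) (G a)) dg D ε ∧ (∀ a I, Sem k (D a I)) ∧
      ∀ a I (r : k0), D a I (algebraMap k0 L r) = 0 := by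
  have hfr : Finite (Σ a, {j : J a // j ≠ j0 a}) := inferInstance
  have := Fintype.ofFinite (Σ a, {j : J a // j ≠ j0 a})
  obtain ⟨D', hDS, hDD⟩ := exists_duals (L := L) _ hind
  obtain ⟨E, hE⟩ : ∃ E : ∀ a, J a → Derivation ℤ L L, ∀ a j, E a j =
      if h : j ≠ j0 a then (D' ⟨a, ⟨j, h⟩⟩).restrictScalars ℤ else
      - ∑ p : (Σ a, {j : J a // j ≠ j0 a}), if p.1 = a then
        algebraMap k L (cf p.1 p.2.1) • (D' p).restrictScalars ℤ else 0 :=
    ⟨_, fun _ _ => rfl⟩
  have hD0 : ∀ p (r : k0), D' p (algebraMap k0 L r) = 0 := fun p r => (D' p).map_algebraMap r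
  have hneg : ∀ a (z : L), (-∑ p : (Σ a, {j : J a // j ≠ j0 a}), if p.1 = a then
      algebraMap k L (cf p.1 p.2.1) • (D' p).restrictScalars ℤ else 0) z =
      -∑ p : (Σ a, {j : J a // j ≠ j0 a}), if p.1 = a then
      algebraMap k L (cf p.1 p.2.1) * D' p z else 0 := by
    intro a z
    rw [Derivation.neg_apply]
    congr 1
    rw [← Derivation.coeFnAddMonoidHom_apply, map_sum, Finset.sum_apply]
    refine Finset.sum_congr rfl fun p _ => ?_
    rw [Derivation.coeFnAddMonoidHom_apply]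
    split_ifs
    · rfl
    · rfl
  have hE0 : ∀ a j (r : k0), E a j (algebraMap k0 L r) = 0 := by
    intro a j r
    rw [hE]
    split_ifs with h2
    · exact hD0 _ _
    · rw [hneg, neg_eq_zero]
      refine Finset.sum_eq_zero fun p _ => ?_
      rw [hD0, mul_zero, ite_self]
  have hES : ∀ a j, Sem k (E a j) := by
    intro a j
    rw [hE]
    split_ifs with h2
    · exact hDS _
    · intro r
      have h4 : ∀ p, ∃ r', D' p (algebraMap k L r) = algebraMap k L r' := fun p => hDS p r
      choose r' hr' using h4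
      refine ⟨-∑ p : (Σ a, {j : J a // j ≠ j0 a}), if p.1 = a then cf p.1 p.2.1 * r' p else 0, ?_⟩
      rw [hneg, map_neg, map_sum]
      congr 1
      refine Finset.sum_congr rfl fun p _ => ?_
      split_ifs
      · rw [map_mul, ← hr']
      · rw [map_zero]
  -- the values
  have hne : ∀ a b (hab : a ≠ b) j i, E a j (algebraMap k L (cf b i)) = 0 := by
    intro a b hab j i
    by_cases hi : i = j0 b
    · rw [hi, h1, map_one, (E a j).map_one_eq_zero]
    · have h3 : ∀ p, D' p (algebraMap k L (cf b i)) =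
          if p = ⟨b, ⟨i, hi⟩⟩ then 1 else 0 := fun p =>
        (hDD p ⟨b, ⟨i, hi⟩⟩).trans (by congr)
      rw [hE]
      split_ifs with h2
      · change D' ⟨a, ⟨j, h2⟩⟩ (algebraMap k L (cf b i)) = 0
        rw [h3, if_neg]
        intro h
        exact hab (congrArg Sigma.fst h)
      · rw [hneg, neg_eq_zero]
        refine Finset.sum_eq_zero fun p _ => ?_
        rw [h3]
        split_ifs with hpa hpb
        · exact absurd (hpa.symm.trans (congrArg Sigma.fst hpb)) hab
        · rw [mul_zero]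
        · rfl
  have heq : ∀ a j i, j ≠ j0 a → E a j (algebraMap k L (cf a i)) = if i = j then 1 else 0 := by
    intro a j i hj
    rw [hE, dif_pos hj]
    change D' ⟨a, ⟨j, hj⟩⟩ (algebraMap k L (cf a i)) = _
    by_cases hi : i = j0 a
    · rw [hi, h1, map_one, (D' _).map_one_eq_zero, if_neg (Ne.symm hj)]
    · have h3 := hDD ⟨a, ⟨j, hj⟩⟩ ⟨a, ⟨i, hi⟩⟩
      dsimp only at h3
      rw [h3]
      by_cases hij : i = j
      · subst hij
        rw [if_pos rfl, if_pos rfl]
      · rw [if_neg hij, if_neg]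
        intro h
        apply hij
        have h6 := eq_of_heq (Sigma.mk.inj_iff.1 h).2
        exact (congrArg Subtype.val h6).symm
  have heq0 : ∀ a i, E a (j0 a) (algebraMap k L (cf a i)) =
      if i = j0 a then 0 else - algebraMap k L (cf a i) := by
    intro a i
    by_cases hi : i = j0 a
    · rw [if_pos hi, hi, h1, map_one, (E a _).map_one_eq_zero]
    · have h3 : ∀ p, D' p (algebraMap k L (cf a i)) =
          if p = ⟨a, ⟨i, hi⟩⟩ then 1 else 0 := fun p =>
        (hDD p ⟨a, ⟨i, hi⟩⟩).trans (by congr)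
      rw [if_neg hi, hE, dif_neg (by rw [not_not]), hneg, Finset.sum_eq_single ⟨a, ⟨i, hi⟩⟩]
      · rw [if_pos rfl, h3, if_pos rfl, mul_one]
      · intro p _ hp
        rw [h3, if_neg hp, mul_zero, ite_self]
      · intro h
        exact absurd (Finset.mem_univ _) h
  -- the choice of the members
  choose js hjs using hSt
  obtain ⟨D, hD⟩ : ∃ D : A → (Fin (n + 1) →₀ ℕ) → Derivation ℤ L L, ∀ a I, D a I =
      if h : I ∈ St c0 (dg a) then E a (js a I h) else 0 := ⟨_, fun _ _ => rfl⟩
  obtain ⟨ε, hε⟩ : ∃ ε : A → (Fin (n + 1) →₀ ℕ) → ℕ, ∀ a I, ε a I =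
      if h : ∃ h : I ∈ St c0 (dg a), js a I h = j0 a then 1 else 0 := ⟨_, fun _ _ => rfl⟩
  refine ⟨D, ε, fun a b I hI x => ?_, fun a I => ?_, fun a I r => ?_⟩
  · obtain ⟨j, hj⟩ : ∃ j, j = js a I hI := ⟨_, rfl⟩
    have hPj : P a j = monomial I 1 := by rw [hj, hjs]
    have hDj : D a I = E a j := by rw [hD, dif_pos hI, hj]
    have h5 : eval x (map (algebraMap k L) (G b)) =
        ∑ i, algebraMap k L (cf b i) * aeval x (P b i) := by
      rw [hG, map_sum, map_sum]
      refine Finset.sum_congr rfl fun i _ => ?_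
      rw [map_mul, map_mul, map_C, eval_C, map_map, eval_map, ← IsScalarTower.algebraMap_eq]
      rfl
    have h6 := der_coeff (P b) (cf b) (E a j) (hE0 a j) x
    rw [← hG] at h6
    rw [hDj]
    dsimp only
    rw [h6, h5]
    by_cases hab : a = b
    · subst hab
      rw [if_pos rfl]
      have h7 : aeval x (P a j) = mon x I := by
        rw [hPj, aeval_monomial, map_one, one_mul]
        exact Finsupp.prod_fintype _ _ fun _ => pow_zero _
      by_cases hj0 : j = j0 a
      · have h8 : ε a I = 1 := by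
          rw [hε, dif_pos ⟨hI, by rw [← hj, hj0]⟩]
        rw [h8, Nat.cast_one, one_mul, hj0, ← Finset.add_sum_erase _ _ (Finset.mem_univ (j0 a)),
          ← Finset.add_sum_erase (Finset.univ) (fun i => algebraMap k L (cf a i) * aeval x (P a i))
            (Finset.mem_univ (j0 a)), heq0, if_pos rfl, h1, map_one, zero_mul, zero_add, one_mul,
          ← h7, hj0, sub_add_cancel_left, ← Finset.sum_neg_distrib]
        refine Finset.sum_congr rfl fun i hi => ?_
        rw [heq0, if_neg (Finset.ne_of_mem_erase hi), neg_mul]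
      · have h8 : ε a I = 0 := by
          rw [hε, dif_neg]
          rintro ⟨h, h'⟩
          exact hj0 (hj.trans h')
        rw [h8, Nat.cast_zero, zero_mul, sub_zero, Finset.sum_eq_single j]
        · rw [heq a j j hj0, if_pos rfl, one_mul, h7]
        · intro i _ hi
          rw [heq a j i hj0, if_neg hi, zero_mul]
        · intro h
          exact absurd (Finset.mem_univ _) h
    · rw [if_neg hab]
      refine Finset.sum_eq_zero fun i _ => ?_
      rw [hne a b hab, zero_mul]
  · rw [hD]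
    split_ifs
    · exact hES _ _
    · exact fun r => ⟨0, by rw [map_zero]; rfl⟩
  · rw [hD]
    split_ifs
    · exact hE0 _ _ r
    · rfl

/-- Curves in complete intersections of generic members of linear systems. -/
theorem curve_lin {k0 k L : Type} [Field k0] [Field k] [Field L] [Algebra k0 k] [Algebra k L]
    [IsAlgClosed k] [CharZero k] [IsFF k L] {n m : ℕ} {A : Type} [Fintype A] {dg : A → ℕ}
    (V : Set (MvPolynomial (Fin (n + 1)) k0)) (hVh : ∀ f ∈ V, ∃ e, f.IsHomogeneous e)
    (hV : DimLE k0 V m) {J : A → Type} [∀ a, Fintype (J a)]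
    (P : ∀ a, J a → MvPolynomial (Fin (n + 1)) k0) (hP : ∀ a j, (P a j).IsHomogeneous (dg a))
    (cf : ∀ a, J a → k) (j0 : ∀ a, J a) (h0 : ∀ a, cf a (j0 a) ≠ 0)
    (hind : AlgebraicIndependent k0 fun p : Σ a, {j : J a // j ≠ j0 a} =>
      cf p.1 p.2.1 / cf p.1 (j0 p.1))
    (c0 : Fin (n + 1)) (hSt : ∀ a, ∀ I ∈ St c0 (dg a), ∃ j, P a j = monomial I 1)
    {F : A → MvPolynomial (Fin (n + 1)) k}
    (hF : ∀ a, F a = ∑ j, C (cf a j) * map (algebraMap k0 k) (P a j))
    (Cs : Finset A) (x : Fin (n + 1) → L) (hc0 : x c0 ≠ 0)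
    (hx : ∃ i j, x j ≠ 0 ∧ x i / x j ∉ Set.range (algebraMap k L))
    (hxV : ∀ f ∈ V, aeval x (map (algebraMap k0 k) f) = 0)
    (hxC : ∀ a ∈ Cs, aeval x (F a) = 0) (hxn : ∀ a, a ∉ Cs → aeval x (F a) ≠ 0) :
    ((∑ a, dg a : ℕ) + Cs.card - 2 * m) * pht k x ≤ canDeg k L +
      {P : Place k L | ∃ a, a ∉ Cs ∧ dg a * pord P x < P.ord (aeval x (F a))}.ncard := by
  classical
  let _ : Algebra k0 L := ((algebraMap k L).comp (algebraMap k0 k)).toAlgebra
  have hst : IsScalarTower k0 k L := IsScalarTower.of_algebraMap_eq fun _ => rfl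
  have hL : CharZero L := charZero_of_injective_algebraMap (algebraMap k L).injective
  obtain ⟨i1, j1, hj1, hi1⟩ := hx
  obtain ⟨cg, hcg⟩ : ∃ cg : ∀ a, J a → k, ∀ a j, cg a j = cf a j / cf a (j0 a) :=
    ⟨fun a j => cf a j / cf a (j0 a), fun _ _ => rfl⟩
  obtain ⟨G, hG⟩ : ∃ G : A → MvPolynomial (Fin (n + 1)) k, ∀ a, G a =
    ∑ j, C (cg a j) * map (algebraMap k0 k) (P a j) := ⟨_, fun _ => rfl⟩
  have hGF : ∀ a, G a = C (cf a (j0 a))⁻¹ * F a := fun a => by
    rw [hG, hF, Finset.mul_sum]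
    refine Finset.sum_congr rfl fun j _ => ?_
    rw [← mul_assoc, ← C_mul, hcg, div_eq_mul_inv, mul_comm (cf a j)]
  have hGh : ∀ a, (G a).IsHomogeneous (dg a) := fun a => by
    rw [hG]
    refine IsHomogeneous.sum _ _ _ fun j _ => ?_
    have := (isHomogeneous_C (Fin (n + 1)) (cg a j)).mul ((hP a j).map (algebraMap k0 k))
    rwa [zero_add] at this
  obtain ⟨D, ε, hD, hDS, hDk⟩ := exists_dualS (L := L) (dg := dg) P cg j0
    (fun a => by rw [hcg, div_self (h0 a)]) (by simpa only [hcg] using hind) c0 hSt hG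
  obtain ⟨H, hH⟩ : ∃ H : A → MvPolynomial (Fin (n + 1)) L, H = fun a =>
    map (algebraMap k L) (G a) := ⟨_, rfl⟩
  rw [← hH] at hD
  have hHh : ∀ a, (H a).IsHomogeneous (dg a) := fun a => by
    rw [hH]
    exact (hGh a).map _
  obtain ⟨δ, hδ⟩ : ∃ δ : Derivation k L L, δ ≠ 0 := ⟨der k L, der_ne⟩
  have hδF : ∀ a u, δ ((H a).coeff u) = 0 := fun a u => by
    rw [hH, coeff_map]
    exact δ.map_algebraMap _
  obtain ⟨x', hx'⟩ : ∃ x' : Fin (n + 1) → L, x' = fun j => (x c0)⁻¹ * x j := ⟨_, rfl⟩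
  have hcx : (x c0)⁻¹ ≠ 0 := inv_ne_zero hc0
  have hx1 : x' c0 = 1 := by
    rw [hx']
    exact inv_mul_cancel₀ hc0
  have hl1 : ∃ l1, δ (x' l1) ≠ 0 := by
    by_contra hcon
    push Not at hcon
    have h3 : ∀ l, ∃ c : k, x' l = algebraMap k L c := fun l => const_of_der hδ (hcon l)
    choose c hc using h3
    apply hi1
    refine ⟨c i1 / c j1, ?_⟩
    rw [map_div₀, ← hc, ← hc, hx']
    field_simp
  obtain ⟨l1, hl1⟩ := hl1
  have hxx : x' = (x c0)⁻¹ • x := by rw [hx']; rfl
  have hx00 : x' ≠ 0 := by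
    rintro h
    rw [h] at hx1
    exact zero_ne_one hx1
  -- the values
  have hev : ∀ a, eval x' (H a) = (x c0)⁻¹ ^ dg a *
      (algebraMap k L (cf a (j0 a))⁻¹ * aeval x (F a)) := by
    intro a
    rw [hxx, eval_smul_hom (hHh a), hH]
    congr 1
    rw [eval_map, hGF, eval₂_mul, eval₂_C]
    rfl
  have hne : ∀ a, algebraMap k L (cf a (j0 a))⁻¹ ≠ 0 := fun a => by
    rw [Ne, map_eq_zero]
    exact inv_ne_zero (h0 a)
  have hVx : ∀ f ∈ V, aeval x' f = 0 := by
    intro f hf
    have h3 : aeval x f = 0 := by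
      have h4 := hxV f hf
      rw [aeval_map_algebraMap] at h4
      exact h4
    obtain ⟨e, he⟩ := hVh f hf
    rw [hxx, Pool.Agent.TH145.MG.aeval_smul he, h3, mul_zero]
  have hrk : Module.finrank L (Full c0 dg D (vert δ) x') ≤ m + 1 := by
    refine le_trans (Submodule.finrank_mono (full_le_tan (k0 := k0) hDk ?_ x'))
      (tan_rank hx1 (hV L x' hx00 hVx))
    intro _ r
    change δ (algebraMap k0 L r) = 0
    rw [IsScalarTower.algebraMap_apply k0 k L]
    exact δ.map_algebraMap _
  have key := curve_ineq (C := Cs) hHh hD hDS hδ hδF hx1 hl1 hrk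
    (fun a ha => by rw [hev, hxC a ha, mul_zero, mul_zero])
    (fun a ha => by
      rw [hev]
      exact mul_ne_zero (pow_ne_zero _ hcx) (mul_ne_zero (hne a) (hxn a ha)))
  have hp : pht k x' = pht k x := by
    rw [hx']
    exact pht_scale ⟨c0, hc0⟩ hcx
  have hs : {P : Place k L | ∃ a, a ∉ Cs ∧ dg a * pord P x' < P.ord (eval x' (H a))} =
      {P : Place k L | ∃ a, a ∉ Cs ∧ dg a * pord P x < P.ord (aeval x (F a))} := by
    ext P
    refine exists_congr fun a => and_congr_right fun ha => ?_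
    rw [hev, P.ord_mul (pow_ne_zero _ hcx) (mul_ne_zero (hne a) (hxn a ha)),
      P.ord_mul (hne a) (hxn a ha), P.ord_const (inv_ne_zero (h0 a)), P.ord_pow, hx',
      pord_scale P ⟨c0, hc0⟩ hcx]
    constructor
    · intro h
      linarith
    · intro h
      linarith
  rw [hp, hs] at key
  exact key

end Pool.Agent.TH145.GE
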