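import Pool.Agent.TH145.GE.Est
import Pool.Agent.TH145.GC.Ineq
import Pool.Agent.TH145.GH.LossB

/-!
The local inequality for curves.
-/

set_option autoImplicit false

open MvPolynomial FF Pool.Agent.W603.LV Pool.Agent.W603.PV Pool.Agent.TH145.GH
open Pool.Agent.TH145.GC (Ev dF_sub dF_self ord_prod exists_minor)
open Pool.Agent.TH145.GD (Ti tv St sM sM_mem mon_step sM_zero sM_top single_mem deg_St finite_St)

namespace Pool.Agent.TH145.GE

section full

variable {K : Type} [Field K] {n : ℕ} {A X : Type} {c0 : Fin (n + 1)} {dg : A → ℕ}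
    {D D' : A → (Fin (n + 1) →₀ ℕ) → Derivation ℤ K K} {E E' : X → Derivation ℤ K K}

theorem full_le [Fintype X] {κ : A → (Fin (n + 1) →₀ ℕ) → X → K} {u : X → K}
    (hD' : ∀ a I f, D' a I f = D a I f + ∑ ξ, κ a I ξ * E ξ f)
    (hE' : ∀ ξ f, E' ξ f = u ξ * E ξ f) (x : Fin (n + 1) → K) :
    Full c0 dg D' E' x ≤ Full c0 dg D E x := by
  have h1 : ∀ ξ, ev (E ξ) x ∈ Full c0 dg D E x := fun ξ => wv_mem_full x (some (Sum.inl ξ))
  have h2 : ∀ a I, I ∈ St c0 (dg a) → Ev D' x a I ∈ Full c0 dg D E x := by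
    intro a I hI
    have h3 : Ev D' x a I = Ev D x a I + ∑ ξ, κ a I ξ • ev (E ξ) x := by
      funext l
      rw [Pi.add_apply, Finset.sum_apply]
      exact hD' a I (x l)
    rw [h3]
    exact add_mem (Ev_mem_full x hI) (sum_mem fun ξ _ => Submodule.smul_mem _ _ (h1 ξ))
  rw [Full, Submodule.span_le]
  rintro _ (⟨o, rfl⟩ | ⟨a, I, hI, rfl⟩)
  · rcases o with _ | ξ | t
    · exact wv_mem_full x none
    · have h3 : wv c0 dg D' E' x (some (Sum.inl ξ)) = u ξ • ev (E ξ) x := by
        funext l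
        exact hE' ξ (x l)
      rw [h3]
      exact Submodule.smul_mem _ _ (h1 ξ)
    · change tv c0 dg D' x t ∈ Full c0 dg D E x
      rw [tv]
      split_ifs with ht
      · exact sub_mem (Submodule.smul_mem _ _ (h2 _ _ (sM_mem (by omega))))
          (Submodule.smul_mem _ _ (h2 _ _ (sM_mem (by omega))))
      · exact zero_mem _
  · exact h2 a I hI

open scoped Classical in
/-- Multiplication of the vertical derivation. -/
theorem det_smul_vert {E E' : Unit → Derivation ℤ K K} {u : K} (hE : ∀ f, E () f = u * E' () f)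
    {x : Fin (n + 1) → K} {b : Finset (Ix Unit n A ⊕ A)}
    (hb : Sum.inl (some (Sum.inl ())) ∈ b) (σ : b → Fin (n + 1)) (I : A → Fin (n + 1) →₀ ℕ) :
    (mx c0 dg D E x I b σ).det = u * (mx c0 dg D E' x I b σ).det := by
  obtain ⟨i0, hi0⟩ : ∃ i0 : b, i0 = ⟨_, hb⟩ := ⟨_, rfl⟩
  have h1 : mx c0 dg D E x I b σ = (mx c0 dg D E' x I b σ).updateRow i0
      (u • fun j => vv c0 dg D E' x I i0 (σ j)) := by
    ext i j
    rw [Matrix.updateRow_apply]
    split_ifs with hi
    · rw [hi, hi0]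
      exact hE _
    · have hi' : i.1 ≠ Sum.inl (some (Sum.inl ())) := fun h => hi (by
        rw [hi0]; exact Subtype.ext h)
      obtain ⟨i, hib⟩ := i
      rcases i with (_ | ⟨⟩ | t) | a
      · rfl
      · exact absurd rfl hi'
      · rfl
      · rfl
  rw [h1, Matrix.det_updateRow_smul]
  congr 1
  have h2 : (mx c0 dg D E' x I b σ).updateRow i0 (fun j => vv c0 dg D E' x I i0 (σ j)) =
      mx c0 dg D E' x I b σ := Matrix.updateRow_eq_self _ _
  rw [h2]

end full

variable {k K : Type} [Field k] [Field K] [Algebra k K] [IsAlgClosed k] [CharZero k] [IsFF k K]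

/-- A derivation that preserves the constants and kills a uniformizer preserves the order. -/
theorem ge_of_kill (P : Place k K) {D : Derivation ℤ K K} (hS : Sem k D) {π : K}
    (hπ : P.ord π = 1) (h0 : D π = 0) {f : K} (hf : f ≠ 0) : Ge P (P.ord f) (D f) := by
  have hπ0 : π ≠ 0 := by
    rintro rfl
    rw [P.ord_zero] at hπ
    exact absurd hπ (by norm_num)
  obtain ⟨g, hg⟩ : ∃ g, g = f / π ^ P.ord f := ⟨_, rfl⟩
  have hπz : π ^ P.ord f ≠ 0 := zpow_ne_zero _ hπ0
  have h1 : f = π ^ P.ord f * g := by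
    rw [hg, mul_div_cancel₀ _ hπz]
  have h2 : Ge P 0 g := by
    right
    rw [hg, P.ord_div hf hπz, P.ord_zpow, hπ]
    linarith
  have h3 : Ge P 0 (D g) := reg_of_zero P hπ hS h0 h2
  have h4 : D f = π ^ P.ord f * D g := by
    conv_lhs => rw [h1]
    rw [D.leibniz, Derivation.leibniz_zpow, h0]
    simp
  rw [h4]
  have h5 : Ge P (P.ord f) (π ^ P.ord f) := by
    right
    rw [P.ord_zpow, hπ, mul_one]
  have := h5.mul h3
  rwa [add_zero] at this

section

variable {n : ℕ} {A : Type} {c0 : Fin (n + 1)} {F : A → MvPolynomial (Fin (n + 1)) K} {dg : A → ℕ}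
    {D : A → (Fin (n + 1) →₀ ℕ) → Derivation ℤ K K} {ε : A → (Fin (n + 1) →₀ ℕ) → ℕ}
    {δ : Derivation k K K}

/-- The vertical derivation of a curve. -/
abbrev vert (δ : Derivation k K K) : Unit → Derivation ℤ K K := fun _ => δ.restrictScalars ℤ

open scoped Classical in
/-- The order of the determinant at a scaled point. -/
theorem ord_det_curve (hF : ∀ a, (F a).IsHomogeneous (dg a)) (hD : DualE c0 F dg D ε) [Fintype A]
    (hS : ∀ a I, Sem k (D a I)) (hδ : δ ≠ 0) (hδF : ∀ a u, δ ((F a).coeff u) = 0) (P : Place k K)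
    {x : Fin (n + 1) → K} (hx : ∀ l, Ge P 0 (x l)) {e1 : Fin (n + 1)} (he1 : x e1 = 1)
    {b : Finset (Ix Unit n A ⊕ A)} (hb : ∀ i ∈ Vert Unit n A, i ∈ b) (σ : b → Fin (n + 1))
    (hcard : Module.finrank K (Full c0 dg D (vert δ) x) = b.card)
    (hdet : (mx c0 dg D (vert δ) x (fun a => Finsupp.single e1 (dg a)) b σ).det ≠ 0)
    (hG : ∀ a, Sum.inr a ∉ b → eval x (F a) ≠ 0) :
    (∑ a ∈ Finset.univ.filter (fun a => Sum.inr a ∉ b), P.ord (eval x (F a))) + vo P δ -
      (if ∃ a, Sum.inr a ∉ b ∧ 0 < P.ord (eval x (F a)) then 1 else 0) ≤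
      P.ord (mx c0 dg D (vert δ) x (fun a => Finsupp.single e1 (dg a)) b σ).det := by
  have hπ := ord_unif P
  obtain ⟨π, hπd⟩ : ∃ π, π = unif P := ⟨_, rfl⟩
  rw [← hπd] at hπ
  have hπ0 : π ≠ 0 := by
    rintro rfl
    rw [P.ord_zero] at hπ
    exact absurd hπ (by norm_num)
  have hδπ : δ π ≠ 0 := der_pi_ne_zero hδ P hπ
  have hvo : vo P δ = P.ord (δ π) := by rw [hπd]; rfl
  -- the local derivation
  obtain ⟨δP, hδP⟩ : ∃ δP : Derivation k K K, δP = (δ π)⁻¹ • δ := ⟨_, rfl⟩
  have hδP1 : δP π = 1 := by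
    rw [hδP]; simp [hδπ]
  have hreg : ∀ f, Ge P 0 f → Ge P 0 (δP f) := fun f hf => der_reg P hπ δP hδP1 hf
  have hlog : ∀ f, f ≠ 0 → Ge P (P.ord f - 1) (δP f) := fun f hf => by
    have := loss_all P (D := δP.restrictScalars ℤ) (e := 0) (fun f hf => by
      rw [neg_zero]; exact hreg f hf) hf
    rwa [zero_add] at this
  obtain ⟨DP, hDP⟩ : ∃ DP : A → (Fin (n + 1) →₀ ℕ) → Derivation ℤ K K, ∀ a I,
    DP a I = D a I - (D a I π / δ π) • δ.restrictScalars ℤ := ⟨_, fun _ _ => rfl⟩
  have hDPf : ∀ a I f, DP a I f = D a I f - D a I π / δ π * δ f := fun a I f => by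
    rw [hDP, Derivation.sub_apply, Derivation.smul_apply, smul_eq_mul]
    rfl
  have hPres : Pres P c0 dg DP := by
    intro f hf a I _
    refine ge_of_kill P (fun c => ?_) hπ ?_ hf
    · obtain ⟨c', hc'⟩ := hS a I c
      refine ⟨c', ?_⟩
      rw [hDPf, hc', Derivation.map_algebraMap, mul_zero, sub_zero]
    · rw [hDPf, div_mul_cancel₀ _ hδπ, sub_self]
  have hDP' : ∀ a I f, DP a I f = D a I f + ∑ ξ : Unit, (-(D a I π / δ π)) * vert δ ξ f :=
    fun a I f => by
      rw [hDPf, Finset.univ_unique, Finset.sum_singleton]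
      change _ = _ + -(D a I π / δ π) * δ f
      ring
  have hmem : Sum.inl (some (Sum.inl ())) ∈ b := hb _ (Or.inr ⟨(), rfl⟩)
  have h1 := det_add_vert (c0 := c0) (dg := dg) (D := D) (E := vert δ)
    (κ := fun a I _ => -(D a I π / δ π)) hDP' (x := x) hb σ (fun a => Finsupp.single e1 (dg a))
  -- the estimate with an arbitrary multiple of the vertical derivation
  have key : ∀ u : K, u ≠ 0 → (∀ l, Ge P 0 (u⁻¹ * δ (x l))) →
      (∀ a, Sum.inr a ∉ b → 0 < P.ord (eval x (F a)) →
        Ge P (P.ord (eval x (F a))) (u⁻¹ * δ (eval x (F a)))) →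
      (∑ a ∈ Finset.univ.filter (fun a => Sum.inr a ∉ b), P.ord (eval x (F a))) + P.ord u ≤
      P.ord (mx c0 dg D (vert δ) x (fun a => Finsupp.single e1 (dg a)) b σ).det := by
    intro u hu hu1 hu2
    obtain ⟨E', hE'⟩ : ∃ E' : Unit → Derivation ℤ K K, ∀ ξ,
      E' ξ = u⁻¹ • δ.restrictScalars ℤ := ⟨_, fun _ => rfl⟩
    have hE'f : ∀ ξ f, E' ξ f = u⁻¹ * δ f := fun ξ f => by
      rw [hE', Derivation.smul_apply, smul_eq_mul]
      rfl
    have h2 := det_smul_vert (c0 := c0) (dg := dg) (D := DP) (E := vert δ) (E' := E') (u := u)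
      (fun f => by
        rw [hE'f, ← mul_assoc, mul_inv_cancel₀ hu, one_mul]
        rfl) (x := x) hmem σ (fun a => Finsupp.single e1 (dg a))
    have hfull : Full c0 dg DP E' x = Full c0 dg D (vert δ) x := by
      apply le_antisymm
      · exact full_le (u := fun _ => u⁻¹) hDP' (fun ξ f => hE'f ξ f) x
      · refine full_le (κ := fun a I _ => D a I π / δ π * u) (u := fun _ => u)
          (fun a I f => ?_) (fun ξ f => ?_) x
        · rw [Finset.univ_unique, Finset.sum_singleton, hDPf, hE'f]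
          have : D a I π / δ π * u * (u⁻¹ * δ f) = D a I π / δ π * δ f := by
            field_simp
          rw [this]
          ring
        · rw [hE'f, ← mul_assoc, mul_inv_cancel₀ hu, one_mul]
          rfl
    have h3 : (mx c0 dg D (vert δ) x (fun a => Finsupp.single e1 (dg a)) b σ).det =
        u * (mx c0 dg DP E' x (fun a => Finsupp.single e1 (dg a)) b σ).det := by
      rw [← h1, h2]
    have hdet' : (mx c0 dg DP E' x (fun a => Finsupp.single e1 (dg a)) b σ).det ≠ 0 := by
      intro h0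
      rw [h0, mul_zero] at h3
      exact hdet h3
    have hDual : DualE c0 F dg DP ε := by
      intro a c I hI z
      have h4 := hD a c I hI z
      rw [← h4]
      refine Finset.sum_congr rfl fun v _ => ?_
      rw [hDPf, hδF, mul_zero, sub_zero]
    have h4 := ord_det hF hDual hPres hx he1 (E := E') σ (by rw [hfull, hcard]) hdet' hG
      (fun ξ l => by rw [hE'f]; exact hu1 l) (fun ξ a ha hpos => by
        rw [dF_ev (fun v => by rw [hE'f, hδF, mul_zero]), hE'f]
        exact hu2 a ha hpos)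
    rw [h3, P.ord_mul hu hdet']
    linarith
  by_cases hS' : ∃ a, Sum.inr a ∉ b ∧ 0 < P.ord (eval x (F a))
  · rw [if_pos hS']
    have h5 := key (δ π / π) (div_ne_zero hδπ hπ0) (fun l => ?_) (fun a ha hpos => ?_)
    · rw [P.ord_div hδπ hπ0, hπ, ← hvo] at h5
      linarith
    · have h6 : (δ π / π)⁻¹ * δ (x l) = π * δP (x l) := by
        rw [hδP, Derivation.smul_apply, smul_eq_mul]
        field_simp
      rw [h6]
      have h7 : Ge P 0 π := Or.inr (by omega)
      have := h7.mul (hreg _ (hx l))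
      rwa [add_zero] at this
    · have h6 : (δ π / π)⁻¹ * δ (eval x (F a)) = π * δP (eval x (F a)) := by
        rw [hδP, Derivation.smul_apply, smul_eq_mul]
        field_simp
      rw [h6]
      have h7 : Ge P 1 π := Or.inr (by omega)
      exact (h7.mul (hlog _ (hG a ha))).mono (by omega)
  · rw [if_neg hS', sub_zero]
    have h5 := key (δ π) hδπ (fun l => ?_) (fun a ha hpos => absurd ⟨a, ha, hpos⟩ hS')
    · rw [← hvo] at h5
      exact h5
    · have h6 : (δ π)⁻¹ * δ (x l) = δP (x l) := by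
        rw [hδP, Derivation.smul_apply, smul_eq_mul]
      rw [h6]
      exact hreg _ (hx l)

end

end Pool.Agent.TH145.GE
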