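import Pool.Agent.TH145.GE.Curve

/-!
The degree inequality for curves.
-/

set_option autoImplicit false

open MvPolynomial FF Pool.Agent.W603.LV Pool.Agent.W603.PV Pool.Agent.TH145.GH
open Pool.Agent.TH145.GC (Ev dF_sub dF_self ord_prod exists_minor)
open Pool.Agent.TH145.GD (Ti tv St sM sM_mem mon_step sM_zero sM_top single_mem deg_St finite_St)

namespace Pool.Agent.TH145.GE

variable {k K : Type} [Field k] [Field K] [Algebra k K] [IsAlgClosed k] [CharZero k] [IsFF k K]
  {n : ℕ} {A : Type} {c0 : Fin (n + 1)} {F : A → MvPolynomial (Fin (n + 1)) K} {dg : A → ℕ}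
  {D : A → (Fin (n + 1) →₀ ℕ) → Derivation ℤ K K} {ε : A → (Fin (n + 1) →₀ ℕ) → ℕ}
  {δ : Derivation k K K}

open scoped Classical in
/-- The local inequality. -/
theorem local_est (hF : ∀ a, (F a).IsHomogeneous (dg a)) (hD : DualE c0 F dg D ε) [Fintype A]
    (hS : ∀ a I, Sem k (D a I)) (hδ : δ ≠ 0) (hδF : ∀ a u, δ ((F a).coeff u) = 0) (P : Place k K)
    {x : Fin (n + 1) → K} (he0 : x c0 ≠ 0)
    {b : Finset (Ix Unit n A ⊕ A)} (hb : ∀ i ∈ Vert Unit n A, i ∈ b) (σ : b → Fin (n + 1))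
    (hspan : Submodule.span K (Set.range (wv c0 dg D (vert δ) x)) ≤
        Submodule.span K (wv c0 dg D (vert δ) x '' {o | Sum.inl o ∈ b}))
    (hcard : Module.finrank K (Full c0 dg D (vert δ) x) = b.card)
    (hdet : (mx c0 dg D (vert δ) x (fun a => Finsupp.single c0 (dg a)) b σ).det ≠ 0)
    (hG : ∀ a, Sum.inr a ∉ b → eval x (F a) ≠ 0) :
    ((∑ i ∈ b, rd i : ℕ) - (∑ a, dg a : ℕ)) * pord P x + vo P δ -
      (if ∃ a, Sum.inr a ∉ b ∧ dg a * pord P x < P.ord (eval x (F a)) then 1 else 0) ≤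
      P.ord ((mx c0 dg D (vert δ) x (fun a => Finsupp.single c0 (dg a)) b σ).det /
        ∏ a, if Sum.inr a ∈ b then x c0 ^ dg a else eval x (F a)) := by
  have hx0 : x ≠ 0 := by
    rintro rfl
    exact he0 rfl
  obtain ⟨lam, x', hlam, hlamP, hxx, hx', e1, he1⟩ := exists_scaled P hx0
  have hdeg : ∀ a, Finsupp.single e1 (dg a) ∈ St c0 (dg a) := fun a => single_mem _
  have hG1 : ∀ a, eval x (F a) = lam ^ dg a * eval x' (F a) := fun a => by
    rw [hxx, eval_smul_hom (hF a)]
  have hG' : ∀ a, Sum.inr a ∉ b → eval x' (F a) ≠ 0 := fun a ha h0 => by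
    apply hG a ha
    rw [hG1, h0, mul_zero]
  obtain ⟨dx, hdx⟩ : ∃ dx, dx = (mx c0 dg D (vert δ) x (fun a => Finsupp.single c0 (dg a)) b σ).det :=
    ⟨_, rfl⟩
  obtain ⟨dx', hdx'⟩ : ∃ dx', dx' = (mx c0 dg D (vert δ) x' (fun a => Finsupp.single e1 (dg a)) b σ).det :=
    ⟨_, rfl⟩
  have h1 := det_change he0 σ hspan (fun a => Finsupp.single e1 (dg a)) hdeg
  have h2 := det_lam (c0 := c0) (dg := dg) (D := D) (E := vert δ) (x := x') lam (hb _ (Or.inl rfl)) σ
    (fun a => Finsupp.single e1 (dg a))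
  rw [← hxx, ← hdx'] at h2
  rw [← hdx, h2] at h1
  have hmon : ∀ a, mon x (Finsupp.single e1 (dg a)) = lam ^ dg a := fun a => by
    rw [mon_single, hxx, Pi.smul_apply, he1, smul_eq_mul, mul_one]
  simp only [hmon] at h1
  rw [← hdx] at hdet ⊢
  obtain ⟨Z, hZ⟩ : ∃ Z, Z = ∏ a, if Sum.inr a ∈ b then x c0 ^ dg a else eval x (F a) := ⟨_, rfl⟩
  have hZ0 : Z ≠ 0 := by
    rw [hZ]
    refine Finset.prod_ne_zero_iff.2 fun a _ => ?_
    split_ifs with ha
    · exact pow_ne_zero _ he0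
    · exact hG a ha
  rw [← hZ]
  -- the main identity
  obtain ⟨Y, hY⟩ : ∃ Y, Y = ∏ a ∈ Finset.univ.filter (fun a => Sum.inr a ∉ b), eval x' (F a) :=
    ⟨_, rfl⟩
  have hY0 : Y ≠ 0 := by
    rw [hY]
    exact Finset.prod_ne_zero_iff.2 fun a ha => hG' a (Finset.mem_filter.1 ha).2
  have h3 : (∏ a, if Sum.inr a ∈ b then lam ^ dg a / x c0 ^ dg a else 1) * Z =
      lam ^ (∑ a, dg a) * Y := by
    rw [hZ, hY, ← Finset.prod_pow_eq_pow_sum, Finset.prod_filter, ← Finset.prod_mul_distrib,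
      ← Finset.prod_mul_distrib]
    refine Finset.prod_congr rfl fun a _ => ?_
    by_cases ha : Sum.inr a ∈ b
    · simp only [ha, if_true, not_true_eq_false, if_false, mul_one]
      rw [div_mul_cancel₀ _ (pow_ne_zero _ he0)]
    · simp only [ha, if_false, not_false_eq_true, if_true, one_mul]
      exact hG1 a
  have h4 : lam ^ (∑ i ∈ b, rd i) * dx' = dx / Z * (lam ^ (∑ a, dg a) * Y) := by
    rw [h1, ← h3]
    field_simp
  have hlp : ∀ m : ℕ, lam ^ m ≠ 0 := fun m => pow_ne_zero _ hlam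
  have hq0 : dx / Z ≠ 0 := div_ne_zero hdet hZ0
  have hdx'0 : dx' ≠ 0 := by
    intro h0
    rw [h0, mul_zero] at h4
    exact mul_ne_zero hq0 (mul_ne_zero (hlp _) hY0) h4.symm
  have h5 := congrArg P.ord h4
  rw [P.ord_mul (hlp _) hdx'0, P.ord_mul hq0 (mul_ne_zero (hlp _) hY0),
    P.ord_mul (hlp _) hY0, P.ord_pow, P.ord_pow, hlamP] at h5
  have h6 : P.ord Y = ∑ a ∈ Finset.univ.filter (fun a => Sum.inr a ∉ b),
      P.ord (eval x' (F a)) := by
    rw [hY]
    exact ord_prod P _ _ fun a ha => hG' a (Finset.mem_filter.1 ha).2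
  have h7 := ord_det_curve hF hD hS hδ hδF P hx' he1 hb σ (by
    rw [← hcard, hxx, full_scale_eq x' hlam]) (by rw [← hdx']; exact hdx'0) hG'
  have h8 : ∀ a, Sum.inr a ∉ b → P.ord (eval x (F a)) - dg a * pord P x =
      P.ord (eval x' (F a)) := by
    intro a ha
    rw [hG1, P.ord_mul (hlp _) (hG' a ha), P.ord_pow, hlamP]
    ring
  have h9 : (∃ a, Sum.inr a ∉ b ∧ dg a * pord P x < P.ord (eval x (F a))) ↔
      ∃ a, Sum.inr a ∉ b ∧ 0 < P.ord (eval x' (F a)) := by
    constructor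
    · rintro ⟨a, ha, h⟩
      exact ⟨a, ha, by rw [← h8 a ha]; linarith⟩
    · rintro ⟨a, ha, h⟩
      rw [← h8 a ha] at h
      exact ⟨a, ha, by linarith⟩
  rw [← hdx', ← h6] at h7
  simp only [h9]
  rw [sub_mul]
  linarith

/-- Summation of the local inequalities. -/
theorem sum_local' {n : ℕ} {x : Fin (n + 1) → K} (hx0 : x ≠ 0) {Θ : K} {a : ℤ}
    {C : Place k K → ℤ} (hC : {P | C P ≠ 0}.Finite)
    (h : ∀ P : Place k K, (- a) * pord P x - C P ≤ P.ord Θ) :
    a * pht k x ≤ ∑ᶠ P, C P := by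
  classical
  have hp := pord_finite (k := k) (Function.ne_iff.1 hx0)
  obtain ⟨T, hT⟩ := exists_supp (k := k) (Finset.univ : Finset Unit) (fun _ => Θ)
  obtain ⟨U, hU⟩ : ∃ U : Finset (Place k K), U = T ∪ (hp.toFinset ∪ hC.toFinset) := ⟨_, rfl⟩
  have h1 : ∑ P ∈ U, P.ord Θ = 0 := sum_ord_finset _ _ fun P hP => by
    rw [hU]; exact Finset.mem_union_left _ (hT () (Finset.mem_univ _) P hP)
  have h2 : pht k x = - ∑ P ∈ U, pord P x := by
    unfold pht
    rw [finsum_eq_sum_of_support_subset (s := U)]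
    intro P hP
    rw [hU]
    exact Finset.mem_union_right _ (Finset.mem_union_left _ (hp.mem_toFinset.2 hP))
  have h3 : ∑ᶠ P, C P = ∑ P ∈ U, C P := by
    rw [finsum_eq_sum_of_support_subset (s := U)]
    intro P hP
    rw [hU]
    exact Finset.mem_union_right _ (Finset.mem_union_right _ (hC.mem_toFinset.2 hP))
  have h4 := Finset.sum_le_sum (s := U) fun P _ => h P
  rw [Finset.sum_sub_distrib, ← Finset.mul_sum, h1, ← h3] at h4
  have h5 : (-a) * ∑ P ∈ U, pord P x = a * pht k x := by rw [h2]; ring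
  rw [h5] at h4
  linarith

open scoped Classical in
/-- The degree inequality. -/
theorem curve_ineq (hF : ∀ a, (F a).IsHomogeneous (dg a)) (hD : DualE c0 F dg D ε) [Fintype A]
    (hS : ∀ a I, Sem k (D a I)) (hδ : δ ≠ 0) (hδF : ∀ a u, δ ((F a).coeff u) = 0)
    {m : ℕ} {C : Finset A} {x : Fin (n + 1) → K} (hx1 : x c0 = 1) {l1 : Fin (n + 1)}
    (hl1 : δ (x l1) ≠ 0) (hrk : Module.finrank K (Full c0 dg D (vert δ) x) ≤ m + 1)
    (hC : ∀ a ∈ C, eval x (F a) = 0) (hCn : ∀ a, a ∉ C → eval x (F a) ≠ 0) :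
    ((∑ a, dg a : ℕ) + C.card - 2 * m) * pht k x ≤ canDeg k K +
      {P : Place k K | ∃ a, a ∉ C ∧ dg a * pord P x < P.ord (eval x (F a))}.ncard := by
  have hx0 : x c0 ≠ 0 := by rw [hx1]; exact one_ne_zero
  have hx00 : x ≠ 0 := by
    rintro rfl
    exact hx0 rfl
  have hδF' : ∀ (ξ : Unit) a u, vert δ ξ ((F a).coeff u) = 0 := fun _ a u => hδF a u
  have hind : LinearIndepOn K (vv c0 dg D (vert δ) x fun a => Finsupp.single c0 (dg a))
      (Vert Unit n A) := by
    have h1 : Vert Unit n A = {Sum.inl none, Sum.inl (some (Sum.inl ()))} := by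
      ext i
      constructor
      · rintro (rfl | ⟨⟨⟩, rfl⟩)
        · exact Or.inl rfl
        · exact Or.inr rfl
      · rintro (rfl | rfl)
        · exact Or.inl rfl
        · exact Or.inr ⟨(), rfl⟩
    rw [h1, LinearIndepOn.pair_iff _ (by simp)]
    intro r s hrs
    have h2 := congrFun hrs c0
    have h3 := congrFun hrs l1
    simp only [vv, wv, ev, Pi.add_apply, Pi.smul_apply, smul_eq_mul, Pi.zero_apply] at h2 h3
    have h4 : vert δ () (x c0) = 0 := by
      rw [hx1]
      exact δ.map_one_eq_zero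
    rw [h4, hx1, mul_one, mul_zero, add_zero] at h2
    rw [h2, zero_mul, zero_add] at h3
    exact ⟨h2, (mul_eq_zero.1 h3).resolve_right hl1⟩
  obtain ⟨b, hbV, hbC, hbi, hspan, hcard⟩ := exists_rows (E := vert δ) hF hD hδF' hx0 hC hind
  obtain ⟨σ, hσ⟩ := exists_minor _ hbi
  have hdet : (mx c0 dg D (vert δ) x (fun a => Finsupp.single c0 (dg a)) b σ).det ≠ 0 := by
    unfold mx
    convert hσ
  have hG : ∀ a, Sum.inr a ∉ b → a ∉ C := fun a ha hac => ha (hbC a hac)
  have hrd : ∑ i ∈ b, rd i + C.card + 2 ≤ 2 * b.card := by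
    obtain ⟨b', hb'⟩ : ∃ b' : Finset (Ix Unit n A ⊕ A), b' = insert (Sum.inl none)
      (insert (Sum.inl (some (Sum.inl ()))) (C.image Sum.inr)) := ⟨_, rfl⟩
    have h1 : b' ⊆ b := by
      rw [hb']
      intro i hi
      rcases Finset.mem_insert.1 hi with rfl | hi
      · exact hbV _ (Or.inl rfl)
      rcases Finset.mem_insert.1 hi with rfl | hi
      · exact hbV _ (Or.inr ⟨(), rfl⟩)
      · obtain ⟨a, ha, rfl⟩ := Finset.mem_image.1 hi
        exact hbC a ha
    have h2 : b'.card = C.card + 2 := by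
      rw [hb', Finset.card_insert_of_notMem (by simp), Finset.card_insert_of_notMem (by simp),
        Finset.card_image_of_injective _ Sum.inr_injective]
    have h3 : ∑ i ∈ b', rd i = b'.card := by
      rw [Finset.card_eq_sum_ones]
      refine Finset.sum_congr rfl fun i hi => ?_
      rw [hb'] at hi
      rcases Finset.mem_insert.1 hi with rfl | hi
      · rfl
      rcases Finset.mem_insert.1 hi with rfl | hi
      · rfl
      · obtain ⟨a, ha, rfl⟩ := Finset.mem_image.1 hi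
        rfl
    have h4 : ∑ i ∈ b \ b', rd i ≤ 2 * (b \ b').card := by
      rw [mul_comm, ← smul_eq_mul, ← Finset.sum_const]
      refine Finset.sum_le_sum fun i _ => ?_
      rcases i with (_ | _ | _) | _
      · exact one_le_two
      · exact one_le_two
      · exact le_rfl
      · exact one_le_two
    have h5 := Finset.sum_sdiff (f := fun i => rd i) h1
    have h6 := Finset.card_sdiff_add_card_eq_card h1
    omega
  have hpht : 0 ≤ pht k x :=
    (hgt_nonneg _).trans (Pool.Agent.W603.CX.hgt_le_pht (k := k) x hx0 hx0)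
  obtain ⟨S, hSd⟩ : ∃ S : Set (Place k K), S = {P | ∃ a, a ∉ C ∧
    dg a * pord P x < P.ord (eval x (F a))} := ⟨_, rfl⟩
  rw [← hSd]
  have hSfin : S.Finite := by
    have h1 : (⋃ a : A, {P : Place k K | P.ord (eval x (F a)) ≠ 0}).Finite :=
      Set.finite_iUnion fun a => finite_support (k := k) _
    refine (h1.union (pord_finite (k := k) (Function.ne_iff.1 hx00))).subset fun P hP => ?_
    rw [hSd] at hP
    obtain ⟨a, -, hP⟩ := hP
    by_contra hcon
    simp only [Set.mem_union, Set.mem_iUnion, Set.mem_ofPred_eq, not_or, not_exists,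
      not_not] at hcon
    have h2 : pord P x = 0 := by
      by_contra h
      exact hcon.2 h
    rw [hcon.1 a, h2, mul_zero] at hP
    exact lt_irrefl _ hP
  obtain ⟨α, hα⟩ : ∃ α : ℤ, α = (∑ a, dg a : ℕ) - (∑ i ∈ b, rd i : ℕ) := ⟨_, rfl⟩
  have h1 := sum_local' (k := k) hx00
    (Θ := (mx c0 dg D (vert δ) x (fun a => Finsupp.single c0 (dg a)) b σ).det /
        ∏ a, if Sum.inr a ∈ b then x c0 ^ dg a else eval x (F a)) (a := α)
    (C := fun P => (if P ∈ S then 1 else 0) + -vo P δ) ?_ (fun P => ?_)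
  · have h2 : ∑ᶠ P : Place k K, ((if P ∈ S then 1 else 0) + -vo P δ) = canDeg k K + S.ncard := by
      rw [finsum_add_distrib]
      · have h3 : ∑ᶠ P : Place k K, (-vo P δ) = canDeg k K := by
          rw [canDeg_eq hδ, finsum_neg_distrib]
        rw [h3, add_comm]
        congr 1
        rw [finsum_eq_sum_of_support_subset (s := hSfin.toFinset), Set.ncard_eq_toFinset_card S hSfin]
        · rw [Finset.sum_congr rfl (g := fun _ => (1 : ℤ)) fun P hP => by
            rw [if_pos (hSfin.mem_toFinset.1 hP)]]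
          simp
        · intro P hP
          rw [Finset.mem_coe, Set.Finite.mem_toFinset]
          by_contra hcon
          rw [Function.mem_support, if_neg hcon] at hP
          exact hP rfl
      · refine hSfin.subset fun P hP => ?_
        by_contra hcon
        rw [Function.mem_support, if_neg hcon] at hP
        exact hP rfl
      · refine (vo_finite hδ).subset fun P hP => ?_
        intro h0
        apply hP
        change -vo P δ = 0
        rw [h0, neg_zero]
    rw [h2] at h1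
    refine le_trans (mul_le_mul_of_nonneg_right ?_ hpht) h1
    have h3 : ((∑ i ∈ b, rd i : ℕ) : ℤ) + C.card + 2 ≤ 2 * b.card := by exact_mod_cast hrd
    have h4 : (b.card : ℤ) ≤ m + 1 := by
      rw [hcard] at hrk
      exact_mod_cast hrk
    rw [hα]
    linarith
  · refine (hSfin.union (vo_finite hδ)).subset fun P hP => ?_
    by_contra hcon
    rw [Set.mem_union, not_or] at hcon
    have h2 : ¬ (vo P δ ≠ 0) := hcon.2
    rw [not_not] at h2
    apply hP
    rw [if_neg hcon.1, h2, neg_zero, add_zero]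
  · have h2 := local_est hF hD hS hδ hδF P hx0 hbV σ hspan hcard hdet
      (fun a ha => hCn a (hG a ha))
    have h3 : (if ∃ a, Sum.inr a ∉ b ∧ dg a * pord P x < P.ord (eval x (F a)) then (1 : ℤ)
        else 0) ≤ if P ∈ S then 1 else 0 := by
      by_cases h : ∃ a, Sum.inr a ∉ b ∧ dg a * pord P x < P.ord (eval x (F a))
      · obtain ⟨a, ha, hlt⟩ := h
        rw [if_pos ⟨a, ha, hlt⟩, if_pos (by rw [hSd]; exact ⟨a, hG a ha, hlt⟩)]
      · rw [if_neg h]
        split_ifs <;> norm_num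
    refine le_trans ?_ h2
    rw [hα]
    have h4 : -(((∑ a, dg a : ℕ) : ℤ) - (∑ i ∈ b, rd i : ℕ)) * pord P x =
      ((∑ i ∈ b, rd i : ℕ) - (∑ a, dg a : ℕ)) * pord P x := by ring
    rw [h4]
    linarith

end Pool.Agent.TH145.GE
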