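import Pool.Agent.TH145.GE.Duals
import Pool.Agent.W603.PV.Main
import Pool.Agent.TH145.MG.FinV

/-!
Curves in generic complete intersections.
-/

set_option autoImplicit false

open MvPolynomial FF Pool.Agent.W603.LV Pool.Agent.W603.PV Pool.Agent.TH145.GH
open Pool.Agent.TH145.GC (Ev dF_sub dF_self ord_prod exists_minor Rt Cf finite_cf Tan
  der_zero_of_alg)
open Pool.Agent.TH145.GD (Ti tv St sM sM_mem mon_step sM_zero sM_top single_mem deg_St finite_St)
open Pool.Agent.W602.GT Pool.Agent.TH145.MG

namespace Pool.Agent.TH145.GE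

theorem finite_rt {n : ℕ} {A : Type} [Finite A] (dg : A → ℕ) (I0 : A → Fin (n + 1) →₀ ℕ) :
    Finite (Rt dg I0) := by
  have h1 : ∀ a, Finite {I : Fin (n + 1) →₀ ℕ // I.degree = dg a ∧ I ≠ I0 a} := fun a =>
    ((Finsupp.finite_of_degree_le (dg a)).subset fun I (hI : I.degree = dg a ∧ I ≠ I0 a) =>
      hI.1.le).to_subtype
  infer_instance

open scoped Classical in
/-- The derivations that are dual to the coefficients of the forms, normalised at the exponents
`I0 a`. -/
theorem exists_dualE {k0 k L : Type} [Field k0] [Field k] [Field L] [Algebra k0 k] [Algebra k L]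
    [Algebra k0 L] [IsScalarTower k0 k L] [IsAlgClosed k] [CharZero k] [IsFF k L] {n : ℕ} {A : Type}
    [Finite A] {dg : A → ℕ} {G : A → MvPolynomial (Fin (n + 1)) k}
    (hG : ∀ a, (G a).IsHomogeneous (dg a)) (I0 : A → Fin (n + 1) →₀ ℕ)
    (h1 : ∀ a, (G a).coeff (I0 a) = 1)
    (hind : AlgebraicIndependent k0 fun p : Rt dg I0 => (G p.1).coeff p.2.1) (c0 : Fin (n + 1)) :
    ∃ (D : A → (Fin (n + 1) →₀ ℕ) → Derivation ℤ L L) (ε : A → (Fin (n + 1) →₀ ℕ) → ℕ),
      DualE c0 (fun a => map (algebraMap k L) (G a)) dg D ε ∧ (∀ a I, Sem k (D a I)) ∧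
      ∀ a I (r : k0), D a I (algebraMap k0 L r) = 0 := by
  have hfr := finite_rt dg I0
  have := Fintype.ofFinite (Rt dg I0)
  obtain ⟨D', hDS, hDD⟩ := exists_duals (L := L) _ hind
  have hI0 : ∀ a, (I0 a).degree = dg a := fun a =>
    deg_of_mem (hG a) (mem_support_iff.2 (by rw [h1]; exact one_ne_zero))
  obtain ⟨D, hD⟩ : ∃ D : A → (Fin (n + 1) →₀ ℕ) → Derivation ℤ L L, ∀ a I, D a I =
      if h : I.degree = dg a ∧ I ≠ I0 a then (D' ⟨a, ⟨I, h⟩⟩).restrictScalars ℤ else
      if I = I0 a then - ∑ p : Rt dg I0, if p.1 = a then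
        algebraMap k L ((G p.1).coeff p.2.1) • (D' p).restrictScalars ℤ else 0 else 0 :=
    ⟨_, fun _ _ => rfl⟩
  have hD0 : ∀ (p : Rt dg I0) (r : k0), D' p (algebraMap k0 L r) = 0 := fun p r =>
    (D' p).map_algebraMap r
  -- the values
  have hval : ∀ a I, I.degree = dg a → ∀ b u, D a I (algebraMap k L ((G b).coeff u)) =
      if a = b then
        if I = I0 a then (if u = I0 a then 0 else - algebraMap k L ((G a).coeff u))
        else if u = I then 1 else 0
      else 0 := by
    intro a I hI b u
    by_cases hud : u.degree = dg b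
    swap
    · have h2 : (G b).coeff u = 0 := by
        by_contra hne
        exact hud (deg_of_mem (hG b) (mem_support_iff.2 hne))
      rw [h2, map_zero, map_zero]
      split_ifs with hab hIa hu hu
      · rfl
      · subst hab
        rw [h2, map_zero, neg_zero]
      · subst hab
        exact absurd (by rw [hu, hI]) hud
      · rfl
      · rfl
    by_cases hu0 : u = I0 b
    · rw [hu0, h1, map_one, (D a I).map_one_eq_zero]
      split_ifs with hab hIa hu hu
      · rfl
      · subst hab
        exact absurd rfl hu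
      · subst hab
        exact absurd hu.symm hIa
      · rfl
      · rfl
    · have h3 : ∀ p : Rt dg I0, D' p (algebraMap k L ((G b).coeff u)) =
          if p = ⟨b, ⟨u, hud, hu0⟩⟩ then 1 else 0 := fun p =>
        (hDD p ⟨b, ⟨u, hud, hu0⟩⟩).trans (by congr)
      by_cases hIa : I = I0 a
      · rw [hD, dif_neg (by rw [not_and, not_not]; exact fun _ => hIa), if_pos hIa,
          if_pos hIa]
        have h4 : (-∑ p : Rt dg I0, if p.1 = a then
            algebraMap k L ((G p.1).coeff p.2.1) • (D' p).restrictScalars ℤ else 0)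
            (algebraMap k L ((G b).coeff u)) = -∑ p : Rt dg I0, if p.1 = a then
            algebraMap k L ((G p.1).coeff p.2.1) * D' p (algebraMap k L ((G b).coeff u)) else 0 := by
          rw [Derivation.neg_apply]
          congr 1
          rw [← Derivation.coeFnAddMonoidHom_apply, map_sum, Finset.sum_apply]
          refine Finset.sum_congr rfl fun p _ => ?_
          rw [Derivation.coeFnAddMonoidHom_apply]
          split_ifs
          · rfl
          · rfl
        rw [h4]
        by_cases hab : a = b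
        · subst hab
          rw [if_pos rfl, if_neg hu0, Finset.sum_eq_single ⟨a, ⟨u, hud, hu0⟩⟩]
          · rw [if_pos rfl, h3, if_pos rfl, mul_one]
          · intro p _ hp
            rw [h3, if_neg hp, mul_zero, ite_self]
          · intro h
            exact absurd (Finset.mem_univ _) h
        · rw [if_neg hab, Finset.sum_eq_zero, neg_zero]
          intro p _
          rw [h3]
          split_ifs with hpa hpb
          · exact absurd (hpa.symm.trans (congrArg Sigma.fst hpb)) hab
          · rw [mul_zero]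
          · rfl
      · rw [hD, dif_pos ⟨hI, hIa⟩, if_neg hIa]
        change D' ⟨a, ⟨I, hI, hIa⟩⟩ (algebraMap k L ((G b).coeff u)) = _
        rw [h3]
        by_cases hab : a = b
        · subst hab
          rw [if_pos rfl]
          by_cases huI : u = I
          · subst huI
            rw [if_pos rfl, if_pos rfl]
          · rw [if_neg huI, if_neg]
            intro h
            apply huI
            have h6 := eq_of_heq (Sigma.mk.inj_iff.1 h).2
            exact (congrArg Subtype.val h6).symm
        · rw [if_neg hab, if_neg]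
          intro h
          exact hab (congrArg Sigma.fst h)
  refine ⟨D, fun a I => if I = I0 a then 1 else 0, fun a b I hI x => ?_, fun a I => ?_,
    fun a I r => ?_⟩
  · have hId : I.degree = dg a := deg_St hI
    have hinj : Function.Injective (algebraMap k L) := (algebraMap k L).injective
    have hsup : (map (algebraMap k L) (G b)).support = (G b).support :=
      support_map_of_injective _ hinj
    have hev : eval x (map (algebraMap k L) (G b)) =
        ∑ u ∈ (G b).support, algebraMap k L ((G b).coeff u) * mon x u := by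
      rw [eval_eq', hsup]
      refine Finset.sum_congr rfl fun u _ => ?_
      rw [coeff_map, mon]
    rw [hsup]
    simp only [coeff_map, hval a I hId b]
    by_cases hab : a = b
    · subst hab
      simp only [if_true]
      by_cases hIa : I = I0 a
      · simp only [hIa, if_true, Nat.cast_one, one_mul]
        rw [hev]
        have h5 : I0 a ∈ (G a).support := mem_support_iff.2 (by rw [h1]; exact one_ne_zero)
        rw [← Finset.add_sum_erase _ _ h5, ← Finset.add_sum_erase _ _ h5, if_pos rfl, h1, map_one,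
          zero_mul, zero_add, one_mul, sub_add_cancel_left, ← Finset.sum_neg_distrib]
        refine Finset.sum_congr rfl fun u hu => ?_
        rw [if_neg (Finset.ne_of_mem_erase hu), neg_mul]
      · simp only [hIa, if_false, Nat.cast_zero, zero_mul, sub_zero]
        have h5 : I ∈ (G a).support := by
          rw [mem_support_iff]
          intro h0
          have h6 := hDD ⟨a, ⟨I, hId, hIa⟩⟩ ⟨a, ⟨I, hId, hIa⟩⟩
          rw [if_pos rfl] at h6
          dsimp only at h6
          rw [h0, map_zero, map_zero] at h6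
          exact zero_ne_one h6
        rw [Finset.sum_eq_single I]
        · rw [if_pos rfl, one_mul]
        · intro u _ hu
          rw [if_neg hu, zero_mul]
        · intro h
          exact absurd h5 h
    · simp only [hab, if_false, zero_mul, Finset.sum_const_zero]
  · rw [hD]
    split_ifs with h2 h3
    · exact hDS _
    · intro r
      have h4 : ∀ p : Rt dg I0, ∃ r', D' p (algebraMap k L r) = algebraMap k L r' :=
        fun p => hDS p r
      choose r' hr' using h4
      refine ⟨-∑ p : Rt dg I0, if p.1 = a then (G p.1).coeff p.2.1 * r' p else 0, ?_⟩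
      rw [Derivation.neg_apply, map_neg]
      congr 1
      rw [← Derivation.coeFnAddMonoidHom_apply, map_sum, Finset.sum_apply, map_sum]
      refine Finset.sum_congr rfl fun p _ => ?_
      rw [Derivation.coeFnAddMonoidHom_apply]
      split_ifs
      · rw [map_mul, ← hr']
        rfl
      · rw [map_zero]; rfl
    · exact fun r => ⟨0, by rw [map_zero]; rfl⟩
  · rw [hD]
    split_ifs with h2 h3
    · exact hD0 _ _
    · rw [Derivation.neg_apply, neg_eq_zero, ← Derivation.coeFnAddMonoidHom_apply, map_sum,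
        Finset.sum_apply]
      refine Finset.sum_eq_zero fun p _ => ?_
      rw [Derivation.coeFnAddMonoidHom_apply]
      split_ifs
      · change _ * D' p (algebraMap k0 L r) = 0
        rw [hD0, mul_zero]
      · rfl
    · rfl

/-- Curves in generic log complete intersections. -/
theorem curve_generic {k0 k L : Type} [Field k0] [Field k] [Field L] [Algebra k0 k] [Algebra k L]
    [IsAlgClosed k] [CharZero k] [IsFF k L] {n m : ℕ} {A : Type} [Fintype A] {dg : A → ℕ}
    (V : Set (MvPolynomial (Fin (n + 1)) k0)) (hVh : ∀ f ∈ V, ∃ e, f.IsHomogeneous e)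
    (hV : DimLE k0 V m) (F : A → MvPolynomial (Fin (n + 1)) k) (hF : ∀ a, (F a).IsHomogeneous (dg a))
    (I0 : A → Fin (n + 1) →₀ ℕ) (h0 : ∀ a, (F a).coeff (I0 a) ≠ 0)
    (hind : AlgebraicIndependent k0 fun p : Rt dg I0 =>
      (F p.1).coeff p.2.1 / (F p.1).coeff (I0 p.1))
    (C : Finset A) (x : Fin (n + 1) → L)
    (hx : ∃ i j, x j ≠ 0 ∧ x i / x j ∉ Set.range (algebraMap k L))
    (hxV : ∀ f ∈ V, aeval x (map (algebraMap k0 k) f) = 0)
    (hxC : ∀ a ∈ C, aeval x (F a) = 0) (hxn : ∀ a, a ∉ C → aeval x (F a) ≠ 0) :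
    ((∑ a, dg a : ℕ) + C.card - 2 * m) * pht k x ≤ canDeg k L +
      {P : Place k L | ∃ a, a ∉ C ∧ dg a * pord P x < P.ord (aeval x (F a))}.ncard := by
  classical
  let _ : Algebra k0 L := ((algebraMap k L).comp (algebraMap k0 k)).toAlgebra
  have hst : IsScalarTower k0 k L := IsScalarTower.of_algebraMap_eq fun _ => rfl
  have hL : CharZero L := charZero_of_injective_algebraMap (algebraMap k L).injective
  obtain ⟨i1, c0, hc0, hi1⟩ := hx
  obtain ⟨G, hG⟩ : ∃ G : A → MvPolynomial (Fin (n + 1)) k, ∀ a, G a =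
    MvPolynomial.C ((F a).coeff (I0 a))⁻¹ * F a := ⟨_, fun _ => rfl⟩
  have hGh : ∀ a, (G a).IsHomogeneous (dg a) := fun a => by
    have := (isHomogeneous_C (Fin (n + 1)) ((F a).coeff (I0 a))⁻¹).mul (hF a)
    rwa [zero_add, ← hG] at this
  have hG1 : ∀ a, (G a).coeff (I0 a) = 1 := fun a => by
    rw [hG, coeff_C_mul, inv_mul_cancel₀ (h0 a)]
  have hGi : AlgebraicIndependent k0 fun p : Rt dg I0 => (G p.1).coeff p.2.1 := by
    have h2 : (fun p : Rt dg I0 => (G p.1).coeff p.2.1) = fun p : Rt dg I0 =>
        (F p.1).coeff p.2.1 / (F p.1).coeff (I0 p.1) := by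
      funext p
      rw [hG, coeff_C_mul, div_eq_mul_inv, mul_comm]
    rw [h2]
    exact hind
  obtain ⟨D, ε, hD, hDS, hDk⟩ := exists_dualE (L := L) hGh I0 hG1 hGi c0
  obtain ⟨H, hH⟩ : ∃ H : A → MvPolynomial (Fin (n + 1)) L, H = fun a =>
    map (algebraMap k L) (G a) := ⟨_, rfl⟩
  rw [← hH] at hD
  have hHh : ∀ a, (H a).IsHomogeneous (dg a) := fun a => by
    rw [hH]
    exact (hGh a).map _
  obtain ⟨δ, hδ⟩ : ∃ δ : Derivation k L L, δ ≠ 0 := ⟨der k L, der_ne⟩
  have hδF : ∀ a u, δ ((H a).coeff u) = 0 := fun a u => by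
    rw [hH, coeff_map]
    exact δ.map_algebraMap _
  obtain ⟨x', hx'⟩ : ∃ x' : Fin (n + 1) → L, x' = fun j => (x c0)⁻¹ * x j := ⟨_, rfl⟩
  have hcx : (x c0)⁻¹ ≠ 0 := inv_ne_zero hc0
  have hx1 : x' c0 = 1 := by
    rw [hx']
    exact inv_mul_cancel₀ hc0
  have hl1 : ∃ l1, δ (x' l1) ≠ 0 := by
    refine ⟨i1, fun h => hi1 ?_⟩
    obtain ⟨c, hc⟩ := const_of_der hδ h
    refine ⟨c, ?_⟩
    rw [← hc, hx', div_eq_mul_inv, mul_comm]
  obtain ⟨l1, hl1⟩ := hl1
  have hxx : x' = (x c0)⁻¹ • x := by rw [hx']; rfl
  have hx00 : x' ≠ 0 := by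
    rintro h
    rw [h] at hx1
    exact zero_ne_one hx1
  -- the values
  have hev : ∀ a, eval x' (H a) = (x c0)⁻¹ ^ dg a *
      (algebraMap k L ((F a).coeff (I0 a))⁻¹ * aeval x (F a)) := by
    intro a
    rw [hxx, eval_smul_hom (hHh a), hH]
    congr 1
    rw [eval_map, hG, eval₂_mul, eval₂_C]
    rfl
  have hne : ∀ a, algebraMap k L ((F a).coeff (I0 a))⁻¹ ≠ 0 := fun a => by
    rw [Ne, map_eq_zero]
    exact inv_ne_zero (h0 a)
  have hVx : ∀ f ∈ V, aeval x' f = 0 := by
    intro f hf
    have h3 : aeval x f = 0 := by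
      have h4 := hxV f hf
      rw [aeval_map_algebraMap] at h4
      exact h4
    obtain ⟨e, he⟩ := hVh f hf
    rw [hxx, Pool.Agent.TH145.MG.aeval_smul he, h3, mul_zero]
  have hrk : Module.finrank L (Full c0 dg D (vert δ) x') ≤ m + 1 := by
    refine le_trans (Submodule.finrank_mono (full_le_tan (k0 := k0) hDk ?_ x'))
      (tan_rank hx1 (hV L x' hx00 hVx))
    intro _ r
    change δ (algebraMap k0 L r) = 0
    rw [IsScalarTower.algebraMap_apply k0 k L]
    exact δ.map_algebraMap _
  have key := curve_ineq (C := C) hHh hD hDS hδ hδF hx1 hl1 hrk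
    (fun a ha => by rw [hev, hxC a ha, mul_zero, mul_zero])
    (fun a ha => by
      rw [hev]
      exact mul_ne_zero (pow_ne_zero _ hcx) (mul_ne_zero (hne a) (hxn a ha)))
  have hp : pht k x' = pht k x := by
    rw [hx']
    exact pht_scale ⟨c0, hc0⟩ hcx
  have hs : {P : Place k L | ∃ a, a ∉ C ∧ dg a * pord P x' < P.ord (eval x' (H a))} =
      {P : Place k L | ∃ a, a ∉ C ∧ dg a * pord P x < P.ord (aeval x (F a))} := by
    ext P
    refine exists_congr fun a => and_congr_right fun ha => ?_
    rw [hev, P.ord_mul (pow_ne_zero _ hcx) (mul_ne_zero (hne a) (hxn a ha)),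
      P.ord_mul (hne a) (hxn a ha), P.ord_const (inv_ne_zero (h0 a)), P.ord_pow, hx',
      pord_scale P ⟨c0, hc0⟩ hcx]
    constructor
    · intro h
      linarith
    · intro h
      linarith
  rw [hp, hs] at key
  exact key

end Pool.Agent.TH145.GE
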