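import Pool.Agent.TH145.GE.CurveIneq
import Pool.Agent.TH145.GC.Scale

/-!
Derivations of a function field of a curve that are dual to constants.
-/

set_option autoImplicit false

open MvPolynomial FF Pool.Agent.W603.LV Pool.Agent.W603.PV Pool.Agent.TH145.GH
open Pool.Agent.TH145.GC (Ev dF_sub dF_self ord_prod exists_minor Rt Cf finite_cf Tan
  der_zero_of_alg)
open Pool.Agent.TH145.GD (Ti tv St sM sM_mem mon_step sM_zero sM_top single_mem deg_St finite_St)
open Pool.Agent.W602.GT Pool.Agent.TH145.MG

namespace Pool.Agent.TH145.GE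

open scoped Classical in
/-- Derivations of the function field, which preserve the constants, dual to independent
constants. -/
theorem exists_duals {k0 k L : Type} [Field k0] [Field k] [Field L] [Algebra k0 k] [Algebra k L]
    [Algebra k0 L] [IsScalarTower k0 k L] [IsAlgClosed k] [CharZero k] [IsFF k L] {β : Type}
    (c : β → k) (hc : AlgebraicIndependent k0 c) :
    ∃ D : β → Derivation k0 L L, (∀ b, Sem k ((D b).restrictScalars ℤ)) ∧
      ∀ b b', D b (algebraMap k L (c b')) = if b = b' then 1 else 0 := by
  have hL : CharZero L := charZero_of_injective_algebraMap (algebraMap k L).injective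
  have hk0 : CharZero k0 := by
    constructor
    intro a b hab
    have h1 := congrArg (algebraMap k0 k) hab
    rw [map_natCast, map_natCast] at h1
    exact Nat.cast_injective h1
  obtain ⟨t, ht⟩ := IsFF.exists_transcendental (k := k) (K := L)
  obtain ⟨s, hs, hy⟩ := exists_isTranscendenceBasis_superset (R := k0)
    (s := Set.range c) hc.coe_range
  have hz := hy.sumElim_comp (IsFF.basis ht)
  obtain ⟨z, hzd⟩ : ∃ z : Unit ⊕ s → L, z = Sum.elim (fun _ => t) (algebraMap k L ∘ fun w : s =>
    (w : k)) := ⟨_, rfl⟩
  rw [← hzd] at hz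
  have hE : ∀ b : β, ∃ E : Derivation k0 L L, ∀ i, E (z i) =
      Sum.elim (fun _ => 0) (fun w : s => if (w : k) = c b then 1 else 0) i :=
    fun b => Pool.Agent.W602.GT.exists_der z hz _
  choose E hE using hE
  refine ⟨E, fun b => ?_, fun b b' => ?_⟩
  · obtain ⟨S, hS⟩ : ∃ S : Set L, S = Set.range (algebraMap k0 L) ∪
      Set.range (algebraMap k L ∘ fun w : s => (w : k)) := ⟨_, rfl⟩
    have hkr : IsAlgClosed (algebraMap k L).fieldRange :=
      IsAlgClosed.of_ringEquiv k _ (RingHom.rangeRestrictFieldEquiv (algebraMap k L))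
    have hSk : acl S ≤ (algebraMap k L).fieldRange := by
      refine acl_of_isAlgClosed hkr ?_
      rw [hS]
      rintro _ (⟨r, rfl⟩ | ⟨i, rfl⟩)
      · exact ⟨algebraMap k0 k r, (IsScalarTower.algebraMap_apply k0 k L r).symm⟩
      · exact ⟨i, rfl⟩
    have hkS : ∀ r : k, algebraMap k L r ∈ acl S := by
      intro r
      rw [mem_acl]
      have h1 : IsAlgebraic (IntermediateField.adjoin k0 (Set.range fun w : s => (w : k))) r := by
        have := hy.isAlgebraic_field
        exact this.isAlgebraic r
      obtain ⟨p, hp0, hp⟩ := h1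
      have h2 : ∀ a : IntermediateField.adjoin k0 (Set.range fun w : s => (w : k)),
          algebraMap k L (a : k) ∈ Subfield.closure S := by
        intro a
        have h3 : (a : k) ∈ Subfield.closure (Set.range (algebraMap k0 k) ∪
            Set.range fun w : s => (w : k)) := by
          rw [← IntermediateField.adjoin_toSubfield]
          exact a.2
        have h4 : Subfield.closure (Set.range (algebraMap k0 k) ∪
            Set.range fun w : s => (w : k)) ≤
            (Subfield.closure S).comap (algebraMap k L) := by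
          rw [Subfield.closure_le]
          rintro _ (⟨r, rfl⟩ | ⟨i, rfl⟩)
          · refine Subfield.subset_closure ?_
            rw [hS]
            exact Or.inl ⟨r, IsScalarTower.algebraMap_apply k0 k L r⟩
          · refine Subfield.subset_closure ?_
            rw [hS]
            exact Or.inr ⟨i, rfl⟩
        exact h4 h3
      let φ : IntermediateField.adjoin k0 (Set.range fun w : s => (w : k)) →+*
          Subfield.closure S :=
        { toFun := fun a => ⟨algebraMap k L (a : k), h2 a⟩
          map_one' := Subtype.ext (map_one (algebraMap k L))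
          map_mul' := fun a b => Subtype.ext (map_mul (algebraMap k L) (a : k) b)
          map_zero' := Subtype.ext (map_zero (algebraMap k L))
          map_add' := fun a b => Subtype.ext (map_add (algebraMap k L) (a : k) b) }
      refine ⟨p.map φ, (Polynomial.map_ne_zero_iff φ.injective).2 hp0, ?_⟩
      have h5 := congrArg (algebraMap k L) hp
      rw [map_zero, Polynomial.aeval_def, Polynomial.hom_eval₂] at h5
      rw [Polynomial.aeval_def, Polynomial.eval₂_map]
      exact h5
    intro r
    have h1 : (E b).restrictScalars ℤ (algebraMap k L r) ∈ acl S := by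
      refine der_acl ((E b).restrictScalars ℤ) ?_ (hkS r)
      rw [hS]
      rintro s' (⟨r, rfl⟩ | ⟨i, rfl⟩)
      · change E b (algebraMap k0 L r) ∈ _
        rw [Derivation.map_algebraMap]
        exact zero_mem _
      · change E b ((algebraMap k L ∘ fun w : s => (w : k)) i) ∈ _
        have h2 : (algebraMap k L ∘ fun w : s => (w : k)) i = z (Sum.inr i) := by rw [hzd]; rfl
        rw [h2, hE]
        simp only [Sum.elim_inr]
        split_ifs
        · exact one_mem _
        · exact zero_mem _
    obtain ⟨r', hr'⟩ := hSk h1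
    exact ⟨r', hr'.symm⟩
  · have h2 : algebraMap k L (c b') = z (Sum.inr ⟨c b', hs ⟨b', rfl⟩⟩) := by rw [hzd]; rfl
    rw [h2, hE]
    simp only [Sum.elim_inr]
    by_cases h : b = b'
    · rw [h, if_pos rfl, if_pos rfl]
    · rw [if_neg h, if_neg fun h' => h (hc.injective h').symm]

/-- The dimension of the space of the tangent vectors. -/
theorem tan_rank {k0 L : Type} [Field k0] [Field L] [Algebra k0 L] [CharZero L] {n : ℕ}
    {x : Fin (n + 1) → L} {l0 : Fin (n + 1)} (hx0 : x l0 = 1) {m : ℕ}
    (h : Algebra.trdeg k0 (coords k0 x) ≤ m) : Module.finrank L (Tan k0 x) ≤ m + 1 := by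
  classical
  obtain ⟨I, hI, hIx⟩ := exists_basis x l0 hx0 h
  obtain ⟨ρ, hρ⟩ : ∃ ρ : Tan k0 x →ₗ[L] ({i // i ∈ insert l0 I} → L), ∀ z i, ρ z i = z.1 i.1 :=
    ⟨{ toFun := fun z i => z.1 i.1
       map_add' := fun _ _ => rfl
       map_smul' := fun _ _ => rfl }, fun _ _ => rfl⟩
  have hinj : Function.Injective ρ := by
    rw [← LinearMap.ker_eq_bot, LinearMap.ker_eq_bot']
    rintro ⟨z, c, E, hE, hz⟩ h0
    have h1 : ∀ i ∈ insert l0 I, z i = 0 := fun i hi => by
      have := congrFun h0 ⟨i, hi⟩
      rw [hρ] at this
      exact this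
    have hc : c = 0 := by
      have h2 := h1 l0 (Finset.mem_insert_self _ _)
      rw [hz, hx0, E.map_one_eq_zero, mul_one, add_zero] at h2
      exact h2
    have hEI : ∀ i ∈ I, E (x i) = 0 := fun i hi => by
      have h2 := h1 i (Finset.mem_insert_of_mem hi)
      rwa [hz, hc, zero_mul, zero_add] at h2
    -- the field of the constants
    have hZ : ∀ w ∈ Subfield.closure (Set.range (algebraMap k0 L) ∪ x '' (I : Set (Fin (n + 1)))),
        E w = 0 := by
      intro w hw
      induction hw using Subfield.closure_induction with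
      | mem w hw =>
        rcases hw with ⟨r, rfl⟩ | ⟨i, hi, rfl⟩
        · exact hE r
        · exact hEI i hi
      | one => exact E.map_one_eq_zero
      | add a b _ _ ha hb => rw [map_add, ha, hb, add_zero]
      | neg a _ ha => rw [map_neg, ha, neg_zero]
      | inv a _ ha => rw [Derivation.leibniz_inv, ha, smul_zero]
      | mul a b _ _ ha hb => rw [E.leibniz, ha, hb, smul_zero, smul_zero, add_zero]
    have hx : ∀ i, E (x i) = 0 := by
      intro i
      refine der_zero_of_alg E _ hZ ?_
      have h2 := mem_cl.1 (hIx i)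
      have h3 : (IntermediateField.adjoin k0 (x '' (I : Set (Fin (n + 1))))).toSubfield =
        Subfield.closure (Set.range (algebraMap k0 L) ∪ x '' (I : Set (Fin (n + 1)))) :=
        IntermediateField.adjoin_toSubfield _ _
      rw [← h3]
      exact h2
    apply Subtype.ext
    funext l
    change z l = 0
    rw [hz, hc, hx, zero_mul, add_zero]
  have h1 := LinearMap.finrank_le_finrank_of_injective hinj
  rw [Module.finrank_pi, Fintype.card_coe] at h1
  have h2 := Finset.card_insert_le l0 I
  omega

theorem full_le_tan {k0 L : Type} [Field k0] [Field L] [Algebra k0 L] {n : ℕ} {A X : Type}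
    {c0 : Fin (n + 1)} {dg : A → ℕ} {D : A → (Fin (n + 1) →₀ ℕ) → Derivation ℤ L L}
    {E : X → Derivation ℤ L L} (hDk : ∀ a I (r : k0), D a I (algebraMap k0 L r) = 0)
    (hEk : ∀ ξ (r : k0), E ξ (algebraMap k0 L r) = 0) (x : Fin (n + 1) → L) :
    Full c0 dg D E x ≤ Tan k0 x := by
  have hE : ∀ a I, Ev D x a I ∈ Tan k0 x := fun a I =>
    ⟨0, D a I, hDk a I, fun l => by rw [zero_mul, zero_add]; rfl⟩
  rw [Full, Submodule.span_le]
  rintro _ (⟨o, rfl⟩ | ⟨a, I, hI, rfl⟩)
  · rcases o with _ | ξ | t
    · exact ⟨1, 0, fun _ => rfl, fun l => by simp [wv]⟩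
    · exact ⟨0, E ξ, hEk ξ, fun l => by rw [zero_mul, zero_add]; rfl⟩
    · simp only [wv, tv]
      split_ifs
      · exact sub_mem (Submodule.smul_mem _ _ (hE _ _)) (Submodule.smul_mem _ _ (hE _ _))
      · exact zero_mem _
  · exact hE a I

end Pool.Agent.TH145.GE
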