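import Pool.Agent.TH145.GE.Local
import Pool.Agent.TH145.GC.Est

/-!
The order of the determinant at a place.
-/

set_option autoImplicit false

open MvPolynomial FF Pool.Agent.W603.LV Pool.Agent.W603.PV Pool.Agent.TH145.GH
open Pool.Agent.TH145.GC (Ev dF_sub dF_self det_est sub_one_ord)
open Pool.Agent.TH145.GD (Ti tv St sM sM_mem mon_step sM_zero sM_top single_mem deg_St finite_St)

namespace Pool.Agent.TH145.GE

variable {k K : Type} [Field k] [Field K] [Algebra k K]

section

variable {n : ℕ} {A X : Type} {c0 : Fin (n + 1)} {F : A → MvPolynomial (Fin (n + 1)) K} {dg : A → ℕ}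
    {D : A → (Fin (n + 1) →₀ ℕ) → Derivation ℤ K K} {E : X → Derivation ℤ K K}
    {ε : A → (Fin (n + 1) →₀ ℕ) → ℕ}

/-- The derivations `D` preserve the orders at `P`. -/
def Pres (P : Place k K) (c0 : Fin (n + 1)) (dg : A → ℕ)
    (D : A → (Fin (n + 1) →₀ ℕ) → Derivation ℤ K K) : Prop :=
  ∀ f, f ≠ 0 → ∀ a, ∀ I ∈ St c0 (dg a), Ge P (P.ord f) (D a I f)

theorem Pres.ge {P : Place k K} (hP : Pres P c0 dg D) {f : K} (hf : Ge P 0 f) {a : A}
    {I : Fin (n + 1) →₀ ℕ} (hI : I ∈ St c0 (dg a)) : Ge P 0 (D a I f) := by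
  by_cases h0 : f = 0
  · rw [h0, map_zero]; exact Ge.zero
  · exact (hP f h0 a I hI).mono (hf.resolve_left h0)

theorem ge_vv {P : Place k K} (hP : Pres P c0 dg D) {x : Fin (n + 1) → K}
    (hx : ∀ l, Ge P 0 (x l)) (hE : ∀ ξ l, Ge P 0 (E ξ (x l))) {I : A → Fin (n + 1) →₀ ℕ}
    (hI : ∀ a, I a ∈ St c0 (dg a)) (i : Ix X n A ⊕ A) (l : Fin (n + 1)) :
    Ge P 0 (vv c0 dg D E x I i l) := by
  rcases i with (_ | ξ | t) | a
  · exact hx l
  · exact hE ξ l
  · simp only [vv, wv, tv]
    split_ifs with ht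
    · refine Ge.mono (by omega : (0 : ℤ) ≤ 0 + 0) (Ge.sub ?_ ?_)
      · exact (hx _).mul (hP.ge (hx l) (sM_mem (by omega)))
      · exact (hx _).mul (hP.ge (hx l) (sM_mem (by omega)))
    · exact Ge.zero
  · exact hP.ge (hx l) (hI a)

/-- The order of the differential of a form along the rows. -/
theorem ge_dF (hF : ∀ a, (F a).IsHomogeneous (dg a)) (hD : DualE c0 F dg D ε) {P : Place k K}
    (hP : Pres P c0 dg D) {x : Fin (n + 1) → K}
    (hx : ∀ l, Ge P 0 (x l)) {I : A → Fin (n + 1) →₀ ℕ} (hI : ∀ a, I a ∈ St c0 (dg a))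
    {a : A} (ha : eval x (F a) ≠ 0) (hEF : ∀ ξ, Ge P (P.ord (eval x (F a))) (dF (F a) x (ev (E ξ) x)))
    (i : Ix X n A ⊕ A) (hi : i ≠ Sum.inr a) :
    Ge P (P.ord (eval x (F a))) (dF (F a) x (vv c0 dg D E x I i)) := by
  classical
  have h1 : Ge P (P.ord (eval x (F a))) (eval x (F a)) := Or.inr le_rfl
  have hε : ∀ m : ℕ, Ge P (P.ord (eval x (F a))) ((m : K) * eval x (F a)) := fun m => by
    have := (Ge.natCast (P := P) m).mul h1
    exact this.mono (by omega)
  rcases i with (_ | ξ | t) | c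
  · simp only [vv, wv]
    rw [dF_self (hF a)]
    exact hε _
  · exact hEF ξ
  · simp only [vv, wv]
    by_cases ht : t.2.2 < dg t.1
    · rw [dF_tv hD x a t ht]
      refine Ge.mono (by omega : _ ≤ 0 + P.ord (eval x (F a))) (Ge.sub ?_ ?_)
      · refine (hx _).mul ((hP _ ha _ _ (sM_mem (by omega))).add ?_)
        split_ifs
        · exact hε _
        · exact Ge.zero
      · refine (hx _).mul ((hP _ ha _ _ (sM_mem (by omega))).add ?_)
        split_ifs
        · exact hε _
        · exact Ge.zero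
    · rw [tv, if_neg ht]
      have h1 : dF (F a) x 0 = 0 := by simp [dF]
      rw [h1]
      exact Ge.zero
  · simp only [vv]
    rw [dF_Ev hD x (hI c), if_neg fun h => hi (by rw [h]), sub_zero]
    exact hP _ ha c _ (hI c)

theorem full_scale_eq (x : Fin (n + 1) → K) {lam : K} (hl : lam ≠ 0) :
    Full c0 dg D E (lam • x) = Full c0 dg D E x := by
  apply le_antisymm (full_scale_le x lam)
  have h1 := full_scale_le (c0 := c0) (dg := dg) (D := D) (E := E) (lam • x) lam⁻¹
  rwa [smul_smul, inv_mul_cancel₀ hl, one_smul] at h1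

open scoped Classical in
/-- A linear functional on the vector fields in terms of the chosen coordinates. -/
theorem exists_coord {x : Fin (n + 1) → K} {I : A → Fin (n + 1) →₀ ℕ}
    (hI : ∀ a, I a ∈ St c0 (dg a)) {b : Finset (Ix X n A ⊕ A)} (σ : b → Fin (n + 1))
    (hcard : Module.finrank K (Full c0 dg D E x) = b.card) (hdet : (mx c0 dg D E x I b σ).det ≠ 0)
    (G : MvPolynomial (Fin (n + 1)) K) :
    ∃ y : b → K, ∀ z ∈ Full c0 dg D E x, ∑ j, y j * z (σ j) = dF G x z := by
  obtain ⟨M, hM⟩ : ∃ M, M = mx c0 dg D E x I b σ := ⟨_, rfl⟩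
  rw [← hM] at hdet
  have hMu : IsUnit M.det := isUnit_iff_ne_zero.2 hdet
  obtain ⟨y, hy⟩ : ∃ y, y = M⁻¹.mulVec (fun i => dF G x (vv c0 dg D E x I i)) := ⟨_, rfl⟩
  have hMy : M.mulVec y = fun i : b => dF G x (vv c0 dg D E x I i) := by
    rw [hy, Matrix.mulVec_mulVec, Matrix.mul_nonsing_inv _ hMu, Matrix.one_mulVec]
  refine ⟨y, ?_⟩
  -- the rows are a basis
  have hli : LinearIndependent K (fun i : b => vv c0 dg D E x I i) := by
    rw [Fintype.linearIndependent_iff]
    intro g hg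
    have h1 : M.vecMul g = 0 := by
      funext j
      have h2 := congrFun hg (σ j)
      rw [Finset.sum_apply, Pi.zero_apply] at h2
      rw [Matrix.vecMul, dotProduct, Pi.zero_apply, ← h2]
      refine Finset.sum_congr rfl fun i _ => ?_
      rw [hM]
      rfl
    have h2 : g = 0 := Matrix.eq_zero_of_vecMul_eq_zero hdet h1
    intro i
    rw [h2, Pi.zero_apply]
  have hle : Submodule.span K (Set.range fun i : b => vv c0 dg D E x I i) ≤
      Full c0 dg D E x := by
    rw [Submodule.span_le]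
    rintro _ ⟨i, rfl⟩
    exact vv_mem_full x hI i.1
  have hspan : Submodule.span K (Set.range fun i : b => vv c0 dg D E x I i) =
      Full c0 dg D E x := by
    apply Submodule.eq_of_le_of_finrank_eq hle
    rw [finrank_span_eq_card hli, Fintype.card_coe, hcard]
  intro z hz
  rw [← hspan, Submodule.mem_span_range_iff_exists_fun] at hz
  obtain ⟨c, rfl⟩ := hz
  have h1 : dF G x (∑ i, c i • vv c0 dg D E x I i) =
      ∑ i, c i * dF G x (vv c0 dg D E x I i) := by
    obtain ⟨φ, hφ⟩ : ∃ φ : (Fin (n + 1) → K) →ₗ[K] K, ∀ z, φ z = dF G x z :=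
      ⟨{ toFun := fun z => dF G x z
         map_add' := fun y z => dF_add _ _ _ _
         map_smul' := fun r z => dF_smul _ _ _ _ }, fun _ => rfl⟩
    rw [← hφ, map_sum]
    refine Finset.sum_congr rfl fun i _ => ?_
    rw [map_smul, hφ, smul_eq_mul]
  rw [h1]
  have h2 : ∀ i : b, dF G x (vv c0 dg D E x I i) =
      ∑ j, vv c0 dg D E x I i (σ j) * y j := by
    intro i
    rw [← congrFun hMy i, Matrix.mulVec, dotProduct, hM]
    rfl
  simp only [h2, Finset.sum_apply, Pi.smul_apply, smul_eq_mul, Finset.mul_sum]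
  rw [Finset.sum_comm]
  refine Finset.sum_congr rfl fun i _ => Finset.sum_congr rfl fun j _ => by ring

open scoped Classical in
/-- The order of the determinant at a scaled point. -/
theorem ord_det (hF : ∀ a, (F a).IsHomogeneous (dg a)) (hD : DualE c0 F dg D ε) [Fintype A]
    {P : Place k K} (hP : Pres P c0 dg D)
    {x : Fin (n + 1) → K} (hx : ∀ l, Ge P 0 (x l)) {e1 : Fin (n + 1)} (he1 : x e1 = 1)
    {b : Finset (Ix X n A ⊕ A)} (σ : b → Fin (n + 1))
    (hcard : Module.finrank K (Full c0 dg D E x) = b.card)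
    (hdet : (mx c0 dg D E x (fun a => Finsupp.single e1 (dg a)) b σ).det ≠ 0)
    (hG : ∀ a, Sum.inr a ∉ b → eval x (F a) ≠ 0) (hE : ∀ ξ l, Ge P 0 (E ξ (x l)))
    (hEF : ∀ ξ a, Sum.inr a ∉ b → 0 < P.ord (eval x (F a)) →
      Ge P (P.ord (eval x (F a))) (dF (F a) x (ev (E ξ) x))) :
    (∑ a ∈ Finset.univ.filter (fun a => Sum.inr a ∉ b), P.ord (eval x (F a))) ≤
      P.ord (mx c0 dg D E x (fun a => Finsupp.single e1 (dg a)) b σ).det := by
  have hdeg : ∀ a, Finsupp.single e1 (dg a) ∈ St c0 (dg a) := fun a => single_mem _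
  obtain ⟨y, hy⟩ : ∃ y : A → b → K, ∀ a, ∀ z ∈ Full c0 dg D E x,
      ∑ j, y a j * z (σ j) = dF (F a) x z := by
    choose y hy using fun a => exists_coord hdeg σ hcard hdet (F a)
    exact ⟨y, hy⟩
  obtain ⟨B', hB'⟩ : ∃ B' : Finset A, B' = (Finset.univ.filter fun a => Sum.inr a ∉ b).filter
      fun a => 0 < P.ord (eval x (F a)) := ⟨_, rfl⟩
  have hm : ∀ a ∈ B', Sum.inr a ∉ b ∧ 0 < P.ord (eval x (F a)) := fun a ha => by
    rw [hB', Finset.mem_filter, Finset.mem_filter] at ha
    exact ⟨ha.1.2, ha.2⟩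
  have h1 := det_est P y (fun a j => Ev D x a (Finsupp.single e1 (dg a)) (σ j))
    (fun a => P.ord (eval x (F a))) 0 B' (fun a _ j => ?_) (fun a ha => ?_)
    (fun a ha c hc hac => ?_)
    (fun i j => vv c0 dg D E x (fun a => Finsupp.single e1 (dg a)) i (σ j)) (fun i j => ?_)
    (fun a ha i => ?_)
  rotate_left
  · rw [neg_zero]
    exact hP.ge (hx _) (hdeg a)
  · rw [hy a _ (Ev_mem_full x (hdeg a)), dF_Ev hD x (hdeg a), if_pos rfl,
      mon_single, he1, one_pow]
    have h2 : Ge P 1 (D a (Finsupp.single e1 (dg a)) (eval x (F a)) +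
        ε a (Finsupp.single e1 (dg a)) * eval x (F a)) := by
      have h3 : Ge P (P.ord (eval x (F a))) (eval x (F a)) := Or.inr le_rfl
      have h4 := (Ge.natCast (P := P) (ε a (Finsupp.single e1 (dg a)))).mul h3
      have h5 := (hm a ha).2
      exact ((hP _ (hG a (hm a ha).1) a _ (hdeg a)).mono (by omega)).add (h4.mono (by omega))
    have h6 := sub_one_ord P h2
    have h7 : D a (Finsupp.single e1 (dg a)) (eval x (F a)) -
        (1 - ε a (Finsupp.single e1 (dg a)) * eval x (F a)) =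
        D a (Finsupp.single e1 (dg a)) (eval x (F a)) +
        ε a (Finsupp.single e1 (dg a)) * eval x (F a) - 1 := by ring
    rw [h7]
    exact h6
  · rw [hy c _ (Ev_mem_full x (hdeg a)), dF_Ev hD x (hdeg a), if_neg hac, sub_zero]
    exact hP _ (hG c (hm c hc).1) a _ (hdeg a)
  · rw [neg_zero]
    exact ge_vv hP hx hE hdeg _ _
  · rw [hy a _ (vv_mem_full x hdeg i.1)]
    refine ge_dF hF hD hP hx hdeg (hG a (hm a ha).1)
      (fun ξ => hEF ξ a (hm a ha).1 (hm a ha).2) _ ?_
    intro h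
    exact (hm a ha).1 (h ▸ i.2)
  have h2 : (Matrix.of fun (i j : b) => vv c0 dg D E x (fun a => Finsupp.single e1 (dg a)) i (σ j)) =
    mx c0 dg D E x (fun a => Finsupp.single e1 (dg a)) b σ := rfl
  rw [h2] at h1
  have h3 := h1.resolve_left hdet
  rw [mul_zero, sub_zero] at h3
  refine le_trans ?_ h3
  rw [← Finset.sum_filter_add_sum_filter_not (Finset.univ.filter (fun a => Sum.inr a ∉ b))
    (fun a => 0 < P.ord (eval x (F a))), ← hB']
  have h6 : ∑ a ∈ (Finset.univ.filter (fun a => Sum.inr a ∉ b)).filter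
      (fun a => ¬ 0 < P.ord (eval x (F a))), P.ord (eval x (F a)) ≤ 0 := by
    refine Finset.sum_nonpos fun a ha => ?_
    have := (Finset.mem_filter.1 ha).2
    omega
  linarith

end

end Pool.Agent.TH145.GE
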