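import Pool.Agent.TH145.GE.Rows
import Pool.Agent.TH145.GC.Local

/-!
The height inequality for generic log complete intersections.
-/

set_option autoImplicit false

open MvPolynomial FF Pool.Agent.W603.LV Pool.Agent.W603.PV Pool.Agent.TH145.GH
open Pool.Agent.TH145.GC (Ev dF_sub dF_self det_row_zero det_scale_gen)
open Pool.Agent.TH145.GD (Ti tv St sM sM_mem mon_step sM_zero sM_top single_mem deg_St finite_St)

namespace Pool.Agent.TH145.GE

section rows

variable {K : Type} [Field K] {n : ℕ} {A X : Type} {c0 : Fin (n + 1)} {dg : A → ℕ}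
  {D : A → (Fin (n + 1) →₀ ℕ) → Derivation ℤ K K} {E : X → Derivation ℤ K K}

/-- The matrix of the rows. -/
noncomputable def mx (c0 : Fin (n + 1)) (dg : A → ℕ) (D : A → (Fin (n + 1) →₀ ℕ) → Derivation ℤ K K)
    (E : X → Derivation ℤ K K) (x : Fin (n + 1) → K) (I : A → Fin (n + 1) →₀ ℕ) (b : Finset (Ix X n A ⊕ A))
    (σ : b → Fin (n + 1)) : Matrix b b K := Matrix.of fun i j => vv c0 dg D E x I i (σ j)

open scoped Classical in
theorem det_change_aux {x : Fin (n + 1) → K} (he : x c0 ≠ 0)
    {b : Finset (Ix X n A ⊕ A)} (σ : b → Fin (n + 1))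
    (hspan : Submodule.span K (Set.range (wv c0 dg D E x)) ≤
        Submodule.span K (wv c0 dg D E x '' {o | Sum.inl o ∈ b}))
    (I : A → Fin (n + 1) →₀ ℕ) (hI : ∀ a, I a ∈ St c0 (dg a)) (S : Finset A) :
    (mx c0 dg D E x (fun a => if a ∈ S then I a else Finsupp.single c0 (dg a)) b σ).det =
      (∏ a ∈ S, if Sum.inr a ∈ b then mon x (I a) / x c0 ^ dg a else 1) *
        (mx c0 dg D E x (fun a => Finsupp.single c0 (dg a)) b σ).det := by
  induction S using Finset.induction_on with
  | empty => simp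
  | insert a S ha ih =>
    rw [Finset.prod_insert ha, mul_assoc, ← ih]
    obtain ⟨J, hJ⟩ : ∃ J : A → Fin (n + 1) →₀ ℕ, J = fun a => if a ∈ S then I a else
      Finsupp.single c0 (dg a) := ⟨_, rfl⟩
    obtain ⟨J', hJ'⟩ : ∃ J' : A → Fin (n + 1) →₀ ℕ, J' = fun c => if c ∈ insert a S then I c else
      Finsupp.single c0 (dg c) := ⟨_, rfl⟩
    rw [← hJ, ← hJ']
    have h1 : ∀ c, c ≠ a → J' c = J c := by
      intro c hc
      rw [hJ, hJ']
      simp only [Finset.mem_insert, hc, false_or]
    have hJa : J a = Finsupp.single c0 (dg a) := by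
      rw [hJ]
      simp only [if_neg ha]
    have hJ'a : J' a = I a := by
      rw [hJ']
      simp only [Finset.mem_insert_self, if_true]
    have h2 : ∀ i : Ix X n A ⊕ A, i ≠ Sum.inr a → vv c0 dg D E x J' i = vv c0 dg D E x J i := by
      rintro (o | c) hi
      · rfl
      · simp only [vv]
        rw [h1 c fun h => hi (by rw [h])]
    split_ifs with hab
    · obtain ⟨i0, hi0⟩ : ∃ i0 : b, i0 = ⟨Sum.inr a, hab⟩ := ⟨_, rfl⟩
      obtain ⟨μ, hμ⟩ : ∃ μ, μ = mon x (I a) / x c0 ^ dg a := ⟨_, rfl⟩
      obtain ⟨w, hw⟩ : ∃ w, w = Ev D x a (I a) - μ • Ev D x a (Finsupp.single c0 (dg a)) := ⟨_, rfl⟩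
      have hwW : w ∈ Submodule.span K (wv c0 dg D E x '' {o | Sum.inl o ∈ b}) := by
        apply hspan
        rw [hw, hμ]
        exact Ev_mod dg D E x he a (hI a)
      have h3 : mx c0 dg D E x J' b σ = (mx c0 dg D E x J b σ).updateRow i0
          (μ • (fun j => vv c0 dg D E x J i0 (σ j)) + fun j => w (σ j)) := by
        ext i j
        rw [Matrix.updateRow_apply]
        split_ifs with hi
        · rw [hi, hi0]
          simp only [mx, Matrix.of_apply, vv, hJa, hJ'a, hw, Pi.add_apply, Pi.smul_apply,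
            Pi.sub_apply]
          rw [add_sub_cancel]
        · simp only [mx, Matrix.of_apply]
          rw [h2 i fun h => hi (Subtype.ext (by rw [h, hi0]))]
      rw [h3, Matrix.det_updateRow_add, Matrix.det_updateRow_smul]
      have h4 : (mx c0 dg D E x J b σ).updateRow i0 (fun j => vv c0 dg D E x J i0 (σ j)) =
          mx c0 dg D E x J b σ := Matrix.updateRow_eq_self _ _
      have h5 : ((mx c0 dg D E x J b σ).updateRow i0 (fun j => w (σ j))).det = 0 := by
        obtain ⟨r, hr⟩ : ∃ r : b → b → K, r = ((mx c0 dg D E x J b σ).updateRow i0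
            (fun j => w (σ j))) := ⟨_, rfl⟩
        have h6 : r i0 = fun j => w (σ j) := by
          rw [hr]
          exact Matrix.updateRow_self
        rw [← hr]
        refine det_row_zero r i0 ?_
        rw [h6]
        obtain ⟨π, hπ⟩ : ∃ π : (Fin (n + 1) → K) →ₗ[K] (b → K), ∀ z j, π z j = z (σ j) :=
          ⟨{ toFun := fun z j => z (σ j)
             map_add' := fun _ _ => rfl
             map_smul' := fun _ _ => rfl }, fun _ _ => rfl⟩
        have h7 : (fun j => w (σ j)) = π w := by
          funext j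
          rw [hπ]
        rw [h7]
        have h8 : π w ∈ (Submodule.span K (wv c0 dg D E x '' {o | Sum.inl o ∈ b})).map π :=
          ⟨w, hwW, rfl⟩
        rw [Submodule.map_span] at h8
        refine Submodule.span_mono ?_ h8
        rintro _ ⟨_, ⟨o, ho, rfl⟩, rfl⟩
        have hne : (⟨Sum.inl o, ho⟩ : b) ≠ i0 := by
          rw [hi0]
          intro h
          exact absurd (congrArg Subtype.val h) (by simp)
        refine ⟨⟨Sum.inl o, ho⟩, hne, ?_⟩
        have h9 : r ⟨Sum.inl o, ho⟩ = mx c0 dg D E x J b σ ⟨Sum.inl o, ho⟩ := by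
          rw [hr]
          exact Matrix.updateRow_ne hne
        rw [h9]
        funext j
        rw [hπ]
        rfl
      rw [h4, h5, add_zero, hμ]
    · rw [one_mul]
      congr 1
      ext i j
      simp only [mx, Matrix.of_apply]
      rw [h2 i fun h => hab (by rw [← h]; exact i.2)]

open scoped Classical in
theorem det_change [Fintype A] {x : Fin (n + 1) → K}
    (he : x c0 ≠ 0) {b : Finset (Ix X n A ⊕ A)} (σ : b → Fin (n + 1))
    (hspan : Submodule.span K (Set.range (wv c0 dg D E x)) ≤
        Submodule.span K (wv c0 dg D E x '' {o | Sum.inl o ∈ b}))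
    (I : A → Fin (n + 1) →₀ ℕ) (hI : ∀ a, I a ∈ St c0 (dg a)) :
    (mx c0 dg D E x I b σ).det =
      (∏ a, if Sum.inr a ∈ b then mon x (I a) / x c0 ^ dg a else 1) *
        (mx c0 dg D E x (fun a => Finsupp.single c0 (dg a)) b σ).det := by
  have h1 := det_change_aux he σ hspan I hI Finset.univ
  simpa using h1

open scoped Classical in
theorem det_lam {x : Fin (n + 1) → K} (lam : K) {b : Finset (Ix X n A ⊕ A)}
    (hb : Sum.inl none ∈ b) (σ : b → Fin (n + 1)) (I : A → Fin (n + 1) →₀ ℕ) :
    (mx c0 dg D E (lam • x) I b σ).det = lam ^ (∑ i ∈ b, rd i) * (mx c0 dg D E x I b σ).det := by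
  obtain ⟨s, hs0, hs⟩ := vv_scale c0 dg D E x lam I
  have h1 := det_scale_gen (fun (i j : b) => vv c0 dg D E (lam • x) I i (σ j))
    (fun (i j : b) => vv c0 dg D E x I i (σ j)) (fun i => lam ^ rd i.1) (fun i => s i.1)
    ⟨Sum.inl none, hb⟩ hs0 (fun i => by
      funext j
      rw [hs]
      rfl)
  have h2 : ∏ i : b, lam ^ rd i.1 = lam ^ (∑ i ∈ b, rd i) := by
    rw [Finset.prod_coe_sort b (fun i => lam ^ rd i), Finset.prod_pow_eq_pow_sum]
  rw [h2] at h1
  exact h1

open scoped Classical in
/-- The determinant does not change if multiples of the vertical derivations are added. -/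
theorem det_add_vert {D' : A → (Fin (n + 1) →₀ ℕ) → Derivation ℤ K K} [Fintype X]
    {κ : A → (Fin (n + 1) →₀ ℕ) → X → K}
    (hD' : ∀ a I f, D' a I f = D a I f + ∑ ξ, κ a I ξ * E ξ f)
    {x : Fin (n + 1) → K} {b : Finset (Ix X n A ⊕ A)} (hb : ∀ i ∈ Vert X n A, i ∈ b)
    (σ : b → Fin (n + 1)) (I : A → Fin (n + 1) →₀ ℕ) :
    (mx c0 dg D' E x I b σ).det = (mx c0 dg D E x I b σ).det := by
  have key : ∀ (S : Finset X) (D' : A → (Fin (n + 1) →₀ ℕ) → Derivation ℤ K K),
      (∀ a I f, D' a I f = D a I f + ∑ ξ ∈ S, κ a I ξ * E ξ f) →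
      (mx c0 dg D' E x I b σ).det = (mx c0 dg D E x I b σ).det := by
    intro S
    induction S using Finset.induction_on with
    | empty =>
      intro D' h
      have h1 : D' = D := by
        funext a I
        ext f
        rw [h, Finset.sum_empty, add_zero]
      rw [h1]
    | insert ξ S hξ ih =>
      intro D' h
      obtain ⟨D1, hD1⟩ : ∃ D1 : A → (Fin (n + 1) →₀ ℕ) → Derivation ℤ K K, ∀ a I,
        D1 a I = D' a I - κ a I ξ • E ξ := ⟨_, fun _ _ => rfl⟩
      have hD1f : ∀ a I f, D1 a I f = D' a I f - κ a I ξ * E ξ f := fun a I f => by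
        rw [hD1, Derivation.sub_apply, Derivation.smul_apply, smul_eq_mul]
      have h1 := ih D1 fun a I f => by
        rw [hD1f, h, Finset.sum_insert hξ]
        ring
      rw [← h1]
      have hmem : Sum.inl (some (Sum.inl ξ)) ∈ b := hb _ (Or.inr ⟨ξ, rfl⟩)
      obtain ⟨s, hs⟩ : ∃ s : Ix X n A ⊕ A → K, s = fun i => match i with
        | Sum.inl none => 0
        | Sum.inl (some (Sum.inl _)) => 0
        | Sum.inl (some (Sum.inr t)) => if t.2.2 < dg t.1 then
            x c0 * κ t.1 (sM c0 (dg t.1) t.2.1 (t.2.2 + 1)) ξ -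
              x t.2.1 * κ t.1 (sM c0 (dg t.1) t.2.1 t.2.2) ξ else 0
        | Sum.inr a => κ a (I a) ξ := ⟨_, rfl⟩
      have hrow : ∀ i l, vv c0 dg D' E x I i l = vv c0 dg D1 E x I i l + s i * E ξ (x l) := by
        rintro ((_ | η | t) | a) l
        · rw [hs]
          simp [vv, wv]
        · rw [hs]
          simp [vv, wv]
        · simp only [vv, wv, tv]
          rw [hs]
          simp only
          split_ifs
          · simp only [Ev, Pi.sub_apply, Pi.smul_apply, smul_eq_mul]
            rw [hD1f, hD1f]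
            ring
          · simp
        · simp only [vv, Ev]
          rw [hD1f, hs]
          ring
      refine Matrix.det_eq_of_forall_row_eq_smul_add_const (fun i : b => s i)
        ⟨_, hmem⟩ ?_ fun i j => ?_
      · simp only [hs]
      · simp only [mx, Matrix.of_apply]
        rw [hrow]
        rfl
  exact key Finset.univ D' hD'

end rows

end Pool.Agent.TH145.GE
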