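import Pool.Agent.TH145.GE.Vec
import Pool.Agent.TH145.GC.Rows

/-!
Choice of the tangent vector fields.
-/

set_option autoImplicit false

open MvPolynomial Pool.Agent.TH145.GH
open Pool.Agent.TH145.GC (Ev dF_sub dF_self)
open Pool.Agent.TH145.GD (Ti tv St sM sM_mem mon_step sM_zero sM_top single_mem deg_St finite_St)

namespace Pool.Agent.TH145.GE

variable {K : Type} [Field K] {n : ℕ} {A X : Type}

/-- The span of all the vector fields. -/
noncomputable def Full (c0 : Fin (n + 1)) (dg : A → ℕ) (D : A → (Fin (n + 1) →₀ ℕ) → Derivation ℤ K K)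
    (E : X → Derivation ℤ K K) (x : Fin (n + 1) → K) : Submodule K (Fin (n + 1) → K) :=
  Submodule.span K (Set.range (wv c0 dg D E x) ∪ {v | ∃ a I, I ∈ St c0 (dg a) ∧ v = Ev D x a I})

section

variable {c0 : Fin (n + 1)} {dg : A → ℕ} {D : A → (Fin (n + 1) →₀ ℕ) → Derivation ℤ K K}
  {E : X → Derivation ℤ K K}

theorem wv_mem_full (x : Fin (n + 1) → K) (o : Ix X n A) : wv c0 dg D E x o ∈ Full c0 dg D E x :=
  Submodule.subset_span (Or.inl ⟨o, rfl⟩)

theorem Ev_mem_full (x : Fin (n + 1) → K) {a : A} {I : Fin (n + 1) →₀ ℕ} (hI : I ∈ St c0 (dg a)) :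
    Ev D x a I ∈ Full c0 dg D E x := Submodule.subset_span (Or.inr ⟨a, I, hI, rfl⟩)

theorem span_wv_le (x : Fin (n + 1) → K) :
    Submodule.span K (Set.range (wv c0 dg D E x)) ≤ Full c0 dg D E x :=
  Submodule.span_mono Set.subset_union_left

theorem vv_mem_full (x : Fin (n + 1) → K) {I : A → Fin (n + 1) →₀ ℕ}
    (hI : ∀ a, I a ∈ St c0 (dg a)) (i : Ix X n A ⊕ A) :
    vv c0 dg D E x I i ∈ Full c0 dg D E x := by
  rcases i with o | a
  · exact wv_mem_full x o
  · exact Ev_mem_full x (hI a)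

theorem full_scale_le (x : Fin (n + 1) → K) (lam : K) : Full c0 dg D E (lam • x) ≤ Full c0 dg D E x := by
  rw [Full, Submodule.span_le]
  have hx : x ∈ Full c0 dg D E x := wv_mem_full x none
  rintro _ (⟨o, rfl⟩ | ⟨a, I, hI, rfl⟩)
  · obtain ⟨s, -, hs⟩ := vv_scale c0 dg D E x lam (fun _ => 0)
    have h1 := hs (Sum.inl o)
    have h2 : wv c0 dg D E (lam • x) o = lam ^ rd (Sum.inl o : Ix X n A ⊕ A) • wv c0 dg D E x o +
        s (Sum.inl o) • x := h1
    rw [SetLike.mem_coe, h2]
    exact add_mem (Submodule.smul_mem _ _ (wv_mem_full x o)) (Submodule.smul_mem _ _ hx)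
  · obtain ⟨s, -, hs⟩ := vv_scale c0 dg D E x lam (fun _ => I)
    have h1 := hs (Sum.inr a)
    have h2 : Ev D (lam • x) a I = lam ^ rd (Sum.inr a : Ix X n A ⊕ A) • Ev D x a I +
        s (Sum.inr a) • x := h1
    rw [SetLike.mem_coe, h2]
    exact add_mem (Submodule.smul_mem _ _ (Ev_mem_full x hI)) (Submodule.smul_mem _ _ hx)

/-- The rows of the position vector and of the vertical vector fields. -/
def Vert (X : Type) (n : ℕ) (A : Type) : Set (Ix X n A ⊕ A) :=
  {i | i = Sum.inl none ∨ ∃ ξ, i = Sum.inl (some (Sum.inl ξ))}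

/-- The choice of the rows. -/
theorem exists_rows {F : A → MvPolynomial (Fin (n + 1)) K} {ε : A → (Fin (n + 1) →₀ ℕ) → ℕ}
    (hF : ∀ a, (F a).IsHomogeneous (dg a)) (hD : DualE c0 F dg D ε)
    (hE : ∀ ξ a u, E ξ ((F a).coeff u) = 0) {x : Fin (n + 1) → K}
    (he : x c0 ≠ 0) {C : Finset A} (hC : ∀ a ∈ C, eval x (F a) = 0)
    (hs0 : LinearIndepOn K (vv c0 dg D E x fun a => Finsupp.single c0 (dg a)) (Vert X n A)) :
    ∃ b : Finset (Ix X n A ⊕ A), (∀ i ∈ Vert X n A, i ∈ b) ∧ (∀ a ∈ C, Sum.inr a ∈ b) ∧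
      LinearIndependent K (fun i : b => vv c0 dg D E x (fun a => Finsupp.single c0 (dg a)) i) ∧
      (Submodule.span K (Set.range (wv c0 dg D E x)) ≤
        Submodule.span K (wv c0 dg D E x '' {o | Sum.inl o ∈ b})) ∧
      Module.finrank K (Full c0 dg D E x) = b.card := by
  classical
  obtain ⟨v, hv⟩ : ∃ v, v = vv c0 dg D E x (fun a => Finsupp.single c0 (dg a)) := ⟨_, rfl⟩
  have hdeg : ∀ a, Finsupp.single c0 (dg a) ∈ St c0 (dg a) := fun a => single_mem _
  rw [← hv] at hs0
  obtain ⟨b0, hb0, hs0b, hspan0, hb0i⟩ := exists_linearIndepOn_extension hs0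
    (t := Set.range Sum.inl) (by
      rintro _ (rfl | ⟨ξ, rfl⟩)
      · exact ⟨none, rfl⟩
      · exact ⟨_, rfl⟩)
  -- the functionals
  obtain ⟨Φ, hΦ⟩ : ∃ Φ : (Fin (n + 1) → K) →ₗ[K] (C → K), ∀ z (c : C), Φ z c = dF (F c) x z := by
    exact ⟨{ toFun := fun z c => dF (F c) x z
             map_add' := fun y z => funext fun c => dF_add _ _ _ _
             map_smul' := fun r z => funext fun c => dF_smul _ _ _ _ }, fun _ _ => rfl⟩
  have hΦw : ∀ z ∈ Submodule.span K (Set.range (wv c0 dg D E x)), Φ z = 0 := by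
    intro z hz
    have h1 : Submodule.span K (Set.range (wv c0 dg D E x)) ≤ LinearMap.ker Φ := by
      rw [Submodule.span_le]
      rintro _ ⟨o, rfl⟩
      rw [SetLike.mem_coe, LinearMap.mem_ker]
      funext c
      rw [hΦ, Pi.zero_apply]
      rcases o with _ | ξ | t
      · simp only [wv]
        rw [dF_self (hF c), hC c c.2, mul_zero]
      · simp only [wv]
        rw [dF_ev (hE ξ c), hC c c.2, map_zero]
      · simp only [wv]
        by_cases ht : t.2.2 < dg t.1
        · rw [dF_tv hD x c t ht, hC c c.2]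
          simp
        · rw [tv, if_neg ht]
          simp [dF]
    exact h1 hz
  have hΦE : ∀ a ∈ C, ∀ c : C, Φ (v (Sum.inr a)) c = if a = c then -(x c0 ^ dg a) else 0 := by
    intro a ha c
    rw [hΦ, hv]
    simp only [vv]
    rw [dF_Ev hD x (hdeg a), hC c c.2, map_zero, mon_single]
    split_ifs <;> simp
  have hΦsum : ∀ r : C → K, Φ (∑ a : C, r a • v (Sum.inr a.1)) =
      fun c => -(r c * x c0 ^ dg c.1) := by
    intro r
    rw [map_sum]
    funext c
    rw [Finset.sum_apply, Finset.sum_eq_single c]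
    · rw [map_smul, Pi.smul_apply, hΦE c c.2, if_pos rfl, smul_eq_mul]
      ring
    · intro a _ hac
      rw [map_smul, Pi.smul_apply, hΦE a a.2, if_neg fun h => hac (Subtype.ext h), smul_zero]
    · intro h; exact absurd (Finset.mem_univ c) h
  have hCind : LinearIndepOn K v (Sum.inr '' (C : Set A)) := by
    have h1 : LinearIndependent K (fun a : C => v (Sum.inr a.1)) := by
      rw [Fintype.linearIndependent_iff]
      intro r hr a
      have h2 := hΦsum r
      rw [hr, map_zero] at h2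
      have h3 := congrFun h2 a
      have h4 : r a * x c0 ^ dg a.1 = 0 := by
        have h5 : (0 : K) = -(r a * x c0 ^ dg a.1) := h3
        rw [← neg_eq_zero]; exact h5.symm
      exact (mul_eq_zero.1 h4).resolve_right (pow_ne_zero _ he)
    have h2 : LinearIndepOn K (v ∘ Sum.inr) (C : Set A) := h1
    exact (LinearIndepOn.image_of_comp _ _ h2)
  have hdisj : Disjoint (Submodule.span K (v '' b0))
      (Submodule.span K (v '' (Sum.inr '' (C : Set A)))) := by
    rw [Submodule.disjoint_def]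
    intro z hz1 hz2
    have h1 : Φ z = 0 := by
      apply hΦw
      refine (Submodule.span_le.2 ?_) hz1
      rintro _ ⟨i, hi, rfl⟩
      obtain ⟨o, rfl⟩ := hb0 hi
      rw [hv]
      exact Submodule.subset_span ⟨o, rfl⟩
    have h2 : v '' (Sum.inr '' (C : Set A)) = Set.range fun a : C => v (Sum.inr a.1) := by
      ext w
      constructor
      · rintro ⟨_, ⟨a, ha, rfl⟩, rfl⟩
        exact ⟨⟨a, ha⟩, rfl⟩
      · rintro ⟨a, rfl⟩
        exact ⟨_, ⟨a.1, a.2, rfl⟩, rfl⟩
    rw [h2, Submodule.mem_span_range_iff_exists_fun] at hz2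
    obtain ⟨r, rfl⟩ := hz2
    rw [hΦsum] at h1
    refine Finset.sum_eq_zero fun a _ => ?_
    have h3 := congrFun h1 a
    have h4 : r a * x c0 ^ dg a.1 = 0 := by
      have h5 : -(r a * x c0 ^ dg a.1) = 0 := h3
      rwa [neg_eq_zero] at h5
    rw [(mul_eq_zero.1 h4).resolve_right (pow_ne_zero _ he), zero_smul]
  obtain ⟨b1, -, hb1, hspan1, hb1i⟩ := exists_linearIndepOn_extension (hb0i.union hCind hdisj)
    (Set.subset_univ _)
  have hb1i' : LinearIndependent K (fun i : b1 => v i) := hb1i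
  have hfin : b1.Finite := by
    have := hb1i'.finite
    exact Set.toFinite b1
  obtain ⟨b, hb⟩ : ∃ b : Finset (Ix X n A ⊕ A), (b : Set _) = b1 :=
    ⟨hfin.toFinset, hfin.coe_toFinset⟩
  have hbm : ∀ i, i ∈ b ↔ i ∈ b1 := fun i => by rw [← hb, Finset.mem_coe]
  have hbi : LinearIndependent K (fun i : b => v i) := by
    have h1 : LinearIndepOn K v (b : Set _) := by rw [hb]; exact hb1i
    exact h1
  refine ⟨b, ?_, fun a ha => ?_, ?_, ?_, ?_⟩
  · intro i hi
    rw [hbm]; exact hb1 (Or.inl (hs0b hi))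
  · rw [hbm]; exact hb1 (Or.inr ⟨a, ha, rfl⟩)
  · rw [← hv]; exact hbi
  · rw [Submodule.span_le]
    rintro _ ⟨o, rfl⟩
    have h1 := hspan0 ⟨Sum.inl o, ⟨o, rfl⟩, rfl⟩
    have h2 : v (Sum.inl o) = wv c0 dg D E x o := by rw [hv]; rfl
    rw [h2] at h1
    refine Submodule.span_mono ?_ h1
    rintro _ ⟨i, hi, rfl⟩
    obtain ⟨o', rfl⟩ := hb0 hi
    refine ⟨o', ?_, by rw [hv]; rfl⟩
    rw [Set.mem_ofPred_eq, hbm]
    exact hb1 (Or.inl hi)
  · have h1 : Full c0 dg D E x = Submodule.span K (Set.range fun i : b => v i) := by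
      apply le_antisymm
      · have h2 : ∀ i, v i ∈ Submodule.span K (Set.range fun i : b => v i) := by
          intro i
          have h3 := hspan1 ⟨i, Set.mem_univ _, rfl⟩
          rw [← hb, Set.image_eq_range] at h3
          exact h3
        have h3 : ∀ o, wv c0 dg D E x o ∈ Submodule.span K (Set.range fun i : b => v i) := by
          intro o
          have := h2 (Sum.inl o)
          rwa [hv] at this ⊢
        rw [Full, Submodule.span_le]
        rintro _ (⟨o, rfl⟩ | ⟨a, I, hI, rfl⟩)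
        · exact h3 o
        · have h4 := Ev_mod dg D E x he a hI
          have h5 : Submodule.span K (Set.range (wv c0 dg D E x)) ≤
              Submodule.span K (Set.range fun i : b => v i) := by
            rw [Submodule.span_le]
            rintro _ ⟨o, rfl⟩
            exact h3 o
          have h6 : Ev D x a (Finsupp.single c0 (dg a)) ∈
              Submodule.span K (Set.range fun i : b => v i) := by
            have := h2 (Sum.inr a)
            rwa [hv] at this ⊢
          have h7 := add_mem (h5 h4) (Submodule.smul_mem _ (mon x I / x c0 ^ dg a) h6)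
          rwa [sub_add_cancel] at h7
      · rw [Submodule.span_le]
        rintro _ ⟨i, rfl⟩
        rw [hv]
        exact vv_mem_full x hdeg i.1
    rw [h1, finrank_span_eq_card hbi, Fintype.card_coe]

end

end Pool.Agent.TH145.GE
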