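import Pool.Agent.TH145.GD.Vec

/-!
Vector fields that are dual to the coefficients of the monomials in two variables, together with
vertical vector fields.
-/

set_option autoImplicit false

open MvPolynomial Pool.Agent.TH145.GH
open Pool.Agent.TH145.GC (Ev dF_sub dF_self)
open Pool.Agent.TH145.GD (Ti tv St sM sM_mem mon_step sM_zero sM_top single_mem deg_St finite_St)

namespace Pool.Agent.TH145.GE

variable {K : Type} [Field K] {n : ℕ} {A X : Type}

/-- The indices of the vector fields. -/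
abbrev Ix (X : Type) (n : ℕ) (A : Type) := Option (X ⊕ Ti n A)

/-- The vector given by a derivation. -/
def ev (E : Derivation ℤ K K) (x : Fin (n + 1) → K) : Fin (n + 1) → K := fun l => E (x l)

/-- The position vector, the vertical vector fields and the tangent vector fields. -/
noncomputable def wv (c : Fin (n + 1)) (dg : A → ℕ)
    (D : A → (Fin (n + 1) →₀ ℕ) → Derivation ℤ K K) (E : X → Derivation ℤ K K)
    (x : Fin (n + 1) → K) : Ix X n A → Fin (n + 1) → K
  | none => x
  | some (Sum.inl ξ) => ev (E ξ) x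
  | some (Sum.inr t) => tv c dg D x t

open scoped Classical in
/-- The derivations are dual to the coefficients of the monomials in two variables, up to
multiples of the forms. -/
def DualE (c : Fin (n + 1)) (F : A → MvPolynomial (Fin (n + 1)) K) (dg : A → ℕ)
    (D : A → (Fin (n + 1) →₀ ℕ) → Derivation ℤ K K) (ε : A → (Fin (n + 1) →₀ ℕ) → ℕ) : Prop :=
  ∀ (a b : A) (I : Fin (n + 1) →₀ ℕ), I ∈ St c (dg a) → ∀ x : Fin (n + 1) → K,
    ∑ u ∈ (F b).support, D a I ((F b).coeff u) * mon x u =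
      if a = b then mon x I - ε a I * eval x (F b) else 0

section

variable {c : Fin (n + 1)} {F : A → MvPolynomial (Fin (n + 1)) K} {dg : A → ℕ}
  {D : A → (Fin (n + 1) →₀ ℕ) → Derivation ℤ K K} {ε : A → (Fin (n + 1) →₀ ℕ) → ℕ}

open scoped Classical in
theorem dF_Ev (hD : DualE c F dg D ε) (x : Fin (n + 1) → K) {a b : A} {I : Fin (n + 1) →₀ ℕ}
    (hI : I ∈ St c (dg a)) :
    dF (F b) x (Ev D x a I) = D a I (eval x (F b)) -
      if a = b then mon x I - ε a I * eval x (F b) else 0 := by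
  have h1 := chainM (D a I) x (F b)
  rw [hD a b I hI x] at h1
  unfold dF Ev
  rw [h1]
  ring

open scoped Classical in
theorem dF_tv (hD : DualE c F dg D ε) (x : Fin (n + 1) → K) (b : A) (t : Ti n A)
    (ht : t.2.2 < dg t.1) :
    dF (F b) x (tv c dg D x t) =
      x c * (D t.1 (sM c (dg t.1) t.2.1 (t.2.2 + 1)) (eval x (F b)) +
        if t.1 = b then ε t.1 (sM c (dg t.1) t.2.1 (t.2.2 + 1)) * eval x (F b) else 0) -
      x t.2.1 * (D t.1 (sM c (dg t.1) t.2.1 t.2.2) (eval x (F b)) +
        if t.1 = b then ε t.1 (sM c (dg t.1) t.2.1 t.2.2) * eval x (F b) else 0) := by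
  rw [tv, if_pos ht, dF_sub, dF_smul, dF_smul, dF_Ev hD x (sM_mem (by omega)),
    dF_Ev hD x (sM_mem (by omega))]
  have h1 := mon_step x c t.2.1 ht
  split_ifs
  · linear_combination -h1
  · ring

/-- The differential of a form along a vertical vector field. -/
theorem dF_ev {E : Derivation ℤ K K} {G : MvPolynomial (Fin (n + 1)) K}
    (hE : ∀ u, E (G.coeff u) = 0) (x : Fin (n + 1) → K) : dF G x (ev E x) = E (eval x G) := by
  have h1 := chainM E x G
  rw [Finset.sum_eq_zero fun u _ => by rw [hE, zero_mul], zero_add] at h1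
  rw [h1]
  rfl

/-- The derivatives, modulo the tangent vectors. -/
theorem Ev_mod (dg : A → ℕ) (D : A → (Fin (n + 1) →₀ ℕ) → Derivation ℤ K K)
    (E : X → Derivation ℤ K K)
    (x : Fin (n + 1) → K) (hc : x c ≠ 0) (a : A) {J : Fin (n + 1) →₀ ℕ}
    (hJ : J ∈ St c (dg a)) :
    Ev D x a J - (mon x J / x c ^ dg a) • Ev D x a (Finsupp.single c (dg a)) ∈
      Submodule.span K (Set.range (wv c dg D E x)) := by
  refine Submodule.span_mono ?_ (Pool.Agent.TH145.GD.Ev_mod dg D x hc a hJ)
  rintro _ ⟨o, rfl⟩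
  rcases o with _ | t
  · exact ⟨none, rfl⟩
  · exact ⟨some (Sum.inr t), rfl⟩

/-- The rows: the vector fields and the derivatives with the exponents `I`. -/
noncomputable def vv (c : Fin (n + 1)) (dg : A → ℕ)
    (D : A → (Fin (n + 1) →₀ ℕ) → Derivation ℤ K K) (E : X → Derivation ℤ K K)
    (x : Fin (n + 1) → K) (I : A → Fin (n + 1) →₀ ℕ) : Ix X n A ⊕ A → Fin (n + 1) → K
  | Sum.inl o => wv c dg D E x o
  | Sum.inr a => Ev D x a (I a)

/-- The degrees of the rows. -/
def rd {X : Type} {n : ℕ} {A : Type} : Ix X n A ⊕ A → ℕ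
  | Sum.inl none => 1
  | Sum.inl (some (Sum.inl _)) => 1
  | Sum.inl (some (Sum.inr _)) => 2
  | Sum.inr _ => 1

theorem vv_scale (c : Fin (n + 1)) (dg : A → ℕ)
    (D : A → (Fin (n + 1) →₀ ℕ) → Derivation ℤ K K) (E : X → Derivation ℤ K K)
    (x : Fin (n + 1) → K) (lam : K) (I : A → Fin (n + 1) →₀ ℕ) :
    ∃ s : Ix X n A ⊕ A → K, s (Sum.inl none) = 0 ∧ ∀ i, vv c dg D E (lam • x) I i =
      lam ^ rd i • vv c dg D E x I i + s i • x := by
  obtain ⟨s, hs0, hs⟩ := Pool.Agent.TH145.GD.vv_scale c dg D x lam I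
  refine ⟨fun i => match i with
    | Sum.inl none => 0
    | Sum.inl (some (Sum.inl ξ)) => E ξ lam
    | Sum.inl (some (Sum.inr t)) => s (Sum.inl (some t))
    | Sum.inr a => s (Sum.inr a), rfl, ?_⟩
  rintro ((_ | ξ | t) | a)
  · simp [vv, wv, rd]
  · simp only [vv, wv, rd, pow_one]
    funext l
    simp only [ev, Pi.smul_apply, Pi.add_apply, smul_eq_mul]
    rw [(E ξ).leibniz]
    simp only [smul_eq_mul]
    ring
  · exact hs (Sum.inl (some t))
  · exact hs (Sum.inr a)

end

end Pool.Agent.TH145.GE
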